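import Pool.Agent.Helper89.A8.MTools
import Pool.Agent.Helper89.A8.Stmts
import Pool.Agent.Helper43.A8.Flag
import Pool.Agent.Helper26.A8.M06

/-!
# Block A8-M08: Hecke vectors of the types `{1,2}`, `{2,3}` do not occur in admissible pairings
(helper21)

Linear algebra over `F_2` with the 315 translates of the Hecke vector, with masks as in
`Helper43/A8/Flag.lean`, and certificates.
-/

set_option autoImplicit false
set_option linter.style.longLine false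

namespace Pool.Agent.A8

open Matrix

namespace M08

open Pool.Agent.A8.Flag

/-! ### data -/

/-- pencils in the order of elimination, type 110 -/
def ord110 : List (ℕ × ℕ × List ℕ) :=
    [(1171, 2, [0, 2, 3, 4, 2, 5, 4]), (1082, 1, [0, 4, 3, 4, 2, 5, 4, 3]), (1235, 2, [0, 3, 4, 2,
    5, 4]), (1427, 2, [0, 3, 5, 1, 4]), (2387, 0, [2, 4, 0, 3, 4, 5]), (1338, 1, [4, 0, 3, 4, 2,
    5, 4, 3]), (314, 1, [3, 5, 4, 0, 3]), (890, 2, [5, 1, 4, 3, 5, 1, 4]), (634, 0, [3, 5, 4, 0,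
    2, 3, 5, 4]), (893, 2, [0, 1, 3, 4, 2, 3, 5, 4, 3]), (1085, 2, [3, 3, 4, 2, 5, 4, 3]), (1491,
    2, [0, 2, 3, 5, 1, 4]), (403, 1, [0, 3, 5, 4]), (2131, 0, [4, 0, 3, 4, 5]), (2357, 2, [4, 0,
    3, 4, 5]), (858, 2, [1, 5, 1, 4, 3, 5, 1, 4]), (602, 0, [3, 1, 4, 5, 4, 0, 3, 4]), (933, 2,
    [0, 4, 0, 2, 3, 4, 5, 4]), (538, 0, [5, 1, 4, 3]), (378, 0, [5, 1, 4, 3, 5, 1, 4]), (637, 1,
    [2, 4, 5, 4, 0, 3, 4, 5]), (1341, 2, [2, 5, 4, 0, 3, 4]), (467, 0, [2, 5, 4, 0, 3, 4]), (861,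
    0, [4, 0, 3, 4, 5, 4, 3]), (645, 2, [0, 4, 0, 3, 4, 5, 4]), (2067, 0, [3, 5]), (339, 0, [4, 0,
    3, 4]), (2101, 2, [4, 0, 3, 4]), (346, 0, [1, 5, 1, 4, 3, 5, 1, 4]), (677, 2, [0, 4, 0, 2, 3,
    5, 4]), (1562, 0, [5, 1, 4, 3, 5]), (673, 2, [5, 1, 4]), (3091, 0, [2, 3, 5]), (381, 1, [1, 0,
    4, 2, 3, 5, 4, 3]), (605, 2, [2, 4, 5, 4, 0, 3, 4]), (317, 1, [0, 2, 5, 4, 0, 3, 4]), (901, 2,
    [4, 0, 3, 5, 4]), (1043, 0, [3]), (2081, 2, []), (309, 1, [0, 4, 0, 3, 4]), (1050, 0, [1, 5,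
    1, 4, 3, 5]), (421, 1, [0, 4, 0, 2, 3, 5, 4]), (1697, 1, [5, 1, 4, 5]), (3105, 1, [2, 5, 4]),
    (1565, 2, [2, 4, 5, 4, 0, 3]), (349, 1, [4, 3, 5, 1, 4, 3]), (541, 2, [2, 5, 4, 0, 3]), (389,
    1, [4, 0, 3, 5, 4]), (1057, 1, [4]), (533, 0, [4, 3]), (1185, 1, [1, 5, 1, 4, 5]), (2581, 0,
    [4, 2, 3, 5]), (1729, 2, [2, 4, 5, 4]), (705, 2, [2, 5, 4]), (1053, 0, [2, 4, 5, 4, 3]),
    (2069, 0, [4, 3, 5]), (577, 2, [4]), (2625, 2, [4, 5]), (1217, 1, [4, 5, 4]), (405, 2, [2, 4,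
    0, 3, 5, 4]), (362, 2, [5, 1, 4, 3, 5, 4]), (874, 2, [3, 4, 5, 4, 0, 3, 4]), (860, 2, [4, 0,
    3, 5, 1, 4, 3, 5]), (348, 1, [2, 4, 3, 5, 4, 3]), (1564, 2, [2, 4, 5, 4, 3]), (876, 2, [0, 2,
    3, 1, 4, 3, 5, 4, 3]), (364, 2, [1, 4, 2, 3, 5, 4, 3]), (917, 2, [4, 0, 3, 5, 1, 4, 5]), (618,
    1, [1, 3, 4, 5, 4, 0, 3, 4]), (604, 1, [4, 0, 3, 5, 1, 4, 3, 5]), (1052, 2, [2, 5, 4, 3]),
    (620, 1, [2, 3, 4, 3, 5, 4, 3]), (661, 1, [4, 0, 3, 5, 1, 4, 5]), (586, 2, [1, 5, 1, 4, 3, 5,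
    4]), (1324, 0, [2, 3, 1, 4, 5, 4, 3]), (842, 0, [0, 4, 3, 4, 2, 5, 4, 3]), (540, 1, [2, 3, 5,
    4, 3]), (1068, 0, [2, 3, 4, 5, 4, 3]), (2341, 0, [0, 2, 4, 0, 3, 4, 5]), (590, 2, [4, 2, 3, 5,
    4, 3]), (330, 0, [1, 5, 1, 4, 3, 5, 4]), (1326, 1, [0, 4, 3, 3, 4, 2, 5, 4, 3]), (846, 1, [0,
    3, 4, 2, 3, 5, 4, 3]), (300, 0, [2, 3, 5, 4, 3]), (1070, 2, [1, 2, 3, 5, 4, 3]), (2085, 0, [0,
    4, 0, 3, 4, 5]), (2343, 1, [0, 1, 4, 3, 5, 1, 4, 5]), (935, 1, [0, 3, 4, 0, 2, 3, 5, 4]),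
    (334, 1, [4, 2, 3, 5, 4, 3]), (638, 2, [0, 1, 4, 3, 5, 1, 4, 3]), (894, 2, [0, 3, 4, 0, 2, 3,
    5, 4, 3]), (302, 1, [1, 2, 3, 5, 4, 3]), (679, 2, [4, 4, 0, 2, 3, 5, 4]), (293, 0, [0, 4, 0,
    3, 4]), (2087, 2, [3, 1, 4, 3]), (663, 2, [0, 1, 4, 3, 5, 1, 4]), (919, 2, [0, 3, 4, 0, 2, 3,
    5, 4]), (1054, 2, [4, 2, 5, 4, 3]), (382, 1, [1, 2, 4, 3, 5, 4, 3]), (542, 2, [1, 2, 5, 4,
    3]), (423, 1, [4, 4, 0, 2, 3, 5, 4]), (295, 1, [3, 1, 4, 3]), (407, 1, [0, 1, 4, 3, 5, 4]),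
    (1249, 2, [4, 2, 5, 4]), (737, 2, [1, 2, 5, 4]), (1566, 0, [1, 2, 4, 5, 4, 3]), (2583, 0, [1,
    4, 2, 3, 5]), (535, 0, [1, 4, 3]), (2071, 0, [1, 4, 3, 5]), (1761, 1, [1, 4, 5, 4]), (2657, 2,
    [1, 4, 5]), (609, 2, [1, 4]), (439, 0, [0, 5, 1, 4, 3, 5, 4]), (695, 0, [3, 5, 1, 4, 3, 5,
    4]), (2359, 0, [0, 3, 4, 2, 3, 5]), (311, 0, [0, 3, 4, 3]), (951, 0, [0, 3, 4, 5, 4, 0, 3,
    4]), (380, 2, [0, 1, 4, 2, 3, 5, 4, 3]), (636, 2, [2, 3, 1, 4, 3, 5, 4, 3]), (2103, 0, [0, 3,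
    4, 3, 5]), (2371, 2, [0, 3, 4, 5]), (323, 2, [0, 3, 4]), (316, 2, [0, 2, 3, 5, 4, 3]), (892,
    1, [0, 2, 3, 4, 3, 5, 4, 3]), (1340, 0, [0, 2, 3, 1, 4, 5, 4, 3]), (451, 2, [0, 2, 3, 5, 4]),
    (2115, 1, [0, 3, 4, 5, 4]), (1084, 0, [0, 2, 3, 4, 5, 4, 3]), (1475, 2, [0, 2, 3, 4, 5, 4]),
    (298, 2, [3, 5, 4, 0, 3]), (641, 2, [5, 4]), (332, 0, [4, 3, 5, 4, 3]), (296, 2, [3, 5, 4,
    3]), (1066, 2, [3, 4, 5, 4, 0, 3]), (536, 2, [5, 4, 3]), (1153, 0, [4, 5, 4, 3]), (588, 0, [3,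
    4, 3, 5, 4, 3]), (328, 2, [4, 3, 5, 4, 3]), (1064, 2, [3, 4, 5, 4, 3]), (1322, 0, [3, 1, 4, 5,
    4, 3]), (1665, 0, [1, 4, 5, 4, 3]), (1048, 2, [4, 5, 4, 3]), (844, 0, [0, 3, 4, 3, 5, 4, 3]),
    (584, 2, [3, 4, 3, 5, 4, 3]), (351, 2, [4, 2, 5, 4, 0, 3, 4]), (863, 2, [4, 2, 5, 4, 0, 3, 4,
    5]), (1320, 1, [0, 4, 0, 3, 4, 5, 4, 3]), (1560, 1, [1, 4, 3, 5, 4, 3]), (543, 2, [0, 1, 2, 5,
    4, 3]), (1055, 2, [0, 4, 2, 5, 4, 3]), (840, 1, [0, 3, 4, 3, 5, 4, 3]), (1343, 2, [0, 1, 2, 3,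
    4, 5, 4, 3]), (319, 2, [0, 1, 2, 3, 5, 4, 3]), (607, 1, [4, 2, 5, 4, 0, 3, 4, 5]), (632, 0,
    [3, 1, 4, 3, 5, 4, 3]), (376, 0, [0, 1, 4, 3, 5, 4, 3]), (1567, 1, [1, 4, 3, 5, 1, 4, 3]),
    (888, 0, [0, 1, 3, 4, 3, 5, 4, 3]), (1087, 1, [0, 3, 4, 3, 5, 1, 4, 3]), (639, 2, [2, 3, 5, 1,
    4, 3, 5, 4]), (383, 2, [0, 1, 2, 4, 3, 5, 4, 3]), (437, 2, [4, 0, 2, 3, 5, 4]), (365, 0, [0,
    5, 1, 4, 3, 5, 1, 4]), (347, 2, [1, 0, 5, 1, 4, 3, 5, 4]), (949, 2, [0, 4, 0, 3, 4, 2, 5, 4]),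
    (875, 2, [1, 4, 3, 4, 2, 5, 4, 3]), (877, 2, [1, 3, 4, 2, 3, 5, 4, 3]), (363, 1, [0, 5, 1, 4,
    3, 5, 1, 4]), (1051, 2, [0, 1, 5, 1, 4, 3, 5]), (859, 2, [1, 3, 5, 1, 4, 3, 5, 4]), (693, 0,
    [1, 3, 5, 1, 4, 3, 5, 4]), (619, 1, [4, 3, 4, 2, 5, 4, 3]), (621, 1, [0, 4, 3, 5, 1, 4, 3,
    5]), (1563, 2, [0, 5, 1, 4, 3]), (603, 1, [1, 3, 5, 1, 4, 3, 5, 4]), (1067, 2, [2, 3, 4, 2, 5,
    4, 3]), (301, 0, [0, 2, 5, 4, 0, 3, 4]), (1069, 0, [1, 3, 4, 2, 5, 4, 3]), (539, 1, [3, 5, 1,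
    4, 3]), (1170, 2, [2, 3, 4, 2, 5, 4]), (1323, 0, [0, 5, 4, 0, 3, 4, 5]), (1325, 0, [0, 2, 5,
    4, 0, 3, 4, 5]), (466, 2, [2, 3, 5, 1, 4]), (1234, 2, [3, 4, 2, 5, 4]), (299, 0, [0, 5, 4, 0,
    3, 4]), (1426, 2, [3, 5, 1, 4]), (1474, 2, [2, 3, 4, 5, 4]), (450, 2, [2, 3, 5, 4]), (1490, 1,
    [3, 1, 4, 5, 4]), (402, 1, [3, 5, 4]), (1218, 1, [3, 4, 5, 4]), (1410, 2, [3, 4, 5, 4]), (386,
    2, [3, 5, 4]), (344, 2, [4, 0, 3, 5, 4, 3]), (600, 2, [0, 4, 0, 3, 4, 5, 4, 3]), (856, 1, [4,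
    0, 3, 4, 5, 4, 3]), (1336, 0, [0, 3, 1, 4, 5, 4, 3]), (312, 0, [0, 3, 5, 4, 3]), (1080, 0, [0,
    3, 4, 5, 4, 3]), (1411, 2, [0, 3, 4, 5, 4]), (387, 2, [0, 3, 5, 4]), (333, 0, [2, 4, 3, 5, 1,
    4, 3]), (845, 0, [2, 4, 3, 5, 1, 4, 3, 5]), (589, 0, [3, 4, 2, 3, 5, 1, 4, 3]), (329, 1, [2,
    4, 3, 5, 1, 4, 3]), (841, 1, [2, 4, 3, 5, 1, 4, 3, 5]), (585, 1, [3, 4, 2, 3, 5, 1, 4, 3]),
    (345, 2, [4, 5, 4, 0, 3, 4]), (1081, 2, [1, 5, 4, 0, 3, 4, 5]), (857, 1, [5, 4, 0, 3, 4, 5,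
    4]), (1065, 2, [0, 1, 5, 4, 0, 3, 4, 5]), (601, 1, [4, 5, 4, 0, 3, 4, 5]), (1337, 2, [5, 4, 0,
    3, 4]), (1321, 2, [0, 5, 4, 0, 3, 4]), (313, 1, [0, 5, 4, 0, 3, 4]), (3090, 2, [3, 5]), (2066,
    2, [3]), (1042, 1, [3, 4]), (322, 0, [3, 4, 3]), (2114, 2, [3, 4, 5]), (934, 1, [1, 4, 3, 5,
    1, 4, 5]), (294, 1, [1, 3, 4, 3]), (678, 2, [1, 4, 2, 3, 5, 4]), (2086, 2, [1, 3, 4, 3, 5]),
    (2370, 0, [3, 4, 2, 3, 5]), (2358, 2, [0, 3, 1, 4, 3, 5]), (310, 2, [0, 3, 1, 4, 3]), (422, 1,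
    [1, 4, 2, 3, 5, 4]), (2342, 1, [3, 4, 0, 2, 3, 5, 4]), (2102, 1, [0, 3, 1, 4, 3, 5, 4]), (438,
    2, [1, 0, 4, 2, 3, 5, 4]), (694, 2, [1, 3, 4, 2, 3, 5, 4]), (2582, 2, [1, 4, 3, 5]), (534, 2,
    [1, 4, 3]), (2070, 1, [1, 4, 3, 5, 4]), (918, 2, [1, 4, 3, 5, 1, 4, 5]), (406, 2, [3, 4, 0, 2,
    3, 5, 4]), (879, 2, [1, 4, 3, 5, 1, 4, 3, 5]), (367, 2, [3, 4, 0, 2, 3, 5, 4, 3]), (662, 0,
    [0, 1, 5, 4, 0, 3, 4, 5, 4]), (623, 1, [3, 4, 2, 3, 5, 4, 3]), (1071, 2, [3, 4, 2, 5, 4, 3]),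
    (303, 2, [2, 3, 5, 1, 4, 3]), (308, 2, [0, 3, 4, 3]), (2356, 1, [4, 3, 5, 1, 4, 5]), (660, 2,
    [0, 4, 3, 5, 1, 4, 5]), (2340, 2, [3, 4, 3, 5]), (292, 2, [3, 4, 3]), (2100, 1, [0, 3, 4, 3,
    5, 4]), (916, 2, [4, 3, 5, 1, 4]), (2084, 1, [3, 4, 3, 5, 4]), (900, 2, [3, 4, 3, 5, 4]),
    (404, 1, [4, 3, 5, 4]), (644, 2, [4, 3, 5, 4]), (889, 2, [1, 4, 5, 4, 0, 3, 4, 5]), (633, 2,
    [1, 4, 5, 4, 0, 3, 4]), (377, 1, [5, 4, 0, 2, 3, 5, 4]), (361, 2, [5, 4, 0, 2, 3, 5, 4]),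
    (617, 2, [0, 1, 5, 4, 0, 3, 4, 5, 4]), (1561, 2, [4, 5, 4, 0, 3]), (1049, 2, [5, 4, 0, 3]),
    (932, 2, [0, 3, 4, 2, 3, 5, 4]), (676, 2, [4, 2, 3, 5, 4]), (532, 2, [4, 3]), (420, 1, [4, 2,
    3, 5, 4]), (2068, 2, [4, 3, 5]), (2386, 2, [3, 1, 4, 5]), (2130, 2, [3, 1, 4]), (360, 0, [1,
    4, 3, 5, 4, 3]), (616, 0, [1, 3, 4, 3, 5, 4, 3]), (390, 2, [1, 4, 3, 5, 4]), (872, 0, [0, 3,
    1, 4, 3, 5, 4, 3]), (646, 2, [1, 3, 4, 3, 5, 4]), (366, 2, [1, 2, 4, 3, 5, 4, 3]), (622, 2,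
    [1, 2, 3, 4, 3, 5, 4, 3]), (878, 1, [4, 0, 2, 3, 4, 5, 4, 3]), (606, 2, [0, 4, 3, 3, 4, 2, 5,
    4, 3]), (350, 2, [4, 0, 2, 3, 5, 4, 3]), (335, 0, [4, 2, 3, 5, 1, 4, 3]), (847, 0, [4, 2, 3,
    5, 1, 4, 3, 5]), (436, 2, [0, 4, 2, 3, 5, 4]), (591, 0, [4, 3, 4, 2, 5, 4, 3]), (948, 2, [3,
    4, 2, 3, 5, 4]), (587, 2, [4, 3, 4, 2, 5, 4, 3]), (331, 2, [4, 2, 3, 5, 1, 4, 3]), (843, 1,
    [4, 2, 3, 5, 1, 4, 3, 5]), (379, 2, [0, 5, 1, 4, 3, 5, 4]), (635, 2, [3, 5, 1, 4, 3, 5, 4]),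
    (1339, 2, [0, 3, 4, 5, 4, 0, 3]), (1083, 2, [0, 3, 5, 4, 0, 3]), (391, 2, [0, 1, 4, 3, 5, 4]),
    (903, 2, [3, 1, 4, 3, 5, 4]), (318, 2, [0, 2, 3, 5, 1, 4, 3]), (1342, 2, [0, 3, 4, 2, 5, 4,
    3])]

/-- norm certificates, type 110, parabolic 0 -/
def cert110_0 : List (ℕ × List (Bool × List ℕ × List ℕ)) :=
    [(1086, [(false, [], [3, 4, 3]), (false, [0], [3, 5, 4, 3]), (false, [0], [2, 3, 5, 4, 3]),
    (false, [0], [4, 3, 5, 4, 3]), (false, [3], [3, 4, 3]), (false, [3], [4, 3, 5, 4, 3]), (false,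
    [3, 3], [4, 3, 5, 4, 3]), (true, [], [3, 5, 4, 3])]), (647, [(false, [], [3, 4, 3]), (false,
    [], [3, 5, 4, 3]), (false, [], [2, 3, 5, 4, 3]), (false, [], [4, 3, 5, 4, 3]), (false, [0],
    [3, 5, 4, 3]), (false, [1], [4, 3, 5, 4, 3]), (false, [3], [3, 4, 3]), (false, [2, 3], [4, 3,
    5, 4, 3]), (true, [], [4, 3, 5, 4, 3]), (true, [0], [3, 5, 4, 3])]), (315, [(false, [], [3, 4,
    3]), (false, [], [1, 3, 4, 3]), (false, [], [3, 5, 4, 3]), (false, [], [2, 3, 5, 4, 3]),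
    (false, [], [4, 3, 5, 4, 3]), (false, [0], [2, 3, 5, 4, 3]), (false, [3], [3, 4, 3]), (false,
    [3], [3, 5, 4, 3]), (false, [0, 3], [4, 3, 5, 4, 3]), (true, [], [3, 4, 3]), (true, [], [1, 3,
    4, 3]), (true, [], [3, 5, 4, 3]), (true, [], [2, 3, 5, 4, 3])]), (891, [(false, [], [3, 5, 4,
    3]), (false, [], [2, 3, 5, 4, 3]), (false, [], [4, 3, 5, 4, 3]), (false, [0], [4, 3, 5, 4,
    3]), (false, [1], [4, 3, 5, 4, 3]), (false, [3], [3, 4, 3]), (false, [3], [3, 5, 4, 3]),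
    (false, [2, 3], [4, 3, 5, 4, 3]), (true, [], [3, 4, 3]), (true, [], [1, 3, 4, 3]), (true, [],
    [3, 5, 4, 3])]), (692, [(false, [], [3, 4, 3]), (false, [], [1, 3, 4, 3]), (false, [0], [3, 5,
    4, 3]), (false, [0], [2, 3, 5, 4, 3]), (false, [0], [4, 3, 5, 4, 3]), (false, [3], [3, 5, 4,
    3]), (false, [3], [4, 3, 5, 4, 3]), (false, [0, 3], [4, 3, 5, 4, 3]), (false, [2, 3], [4, 3,
    5, 4, 3]), (false, [3, 3], [4, 3, 5, 4, 3]), (true, [], [4, 3, 5, 4, 3]), (true, [0], [3, 5,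
    4, 3])]), (862, [(false, [], [3, 5, 4, 3]), (false, [], [2, 3, 5, 4, 3]), (false, [], [4, 3,
    5, 4, 3]), (false, [0], [2, 3, 5, 4, 3]), (false, [1], [4, 3, 5, 4, 3]), (false, [3], [3, 4,
    3]), (false, [3], [3, 5, 4, 3]), (false, [2, 3], [4, 3, 5, 4, 3]), (true, [], [3, 4, 3]),
    (true, [], [3, 5, 4, 3])]), (902, [(false, [], [1, 3, 4, 3]), (false, [], [3, 5, 4, 3]),
    (false, [], [2, 3, 5, 4, 3]), (false, [0], [4, 3, 5, 4, 3]), (false, [1], [4, 3, 5, 4, 3]),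
    (false, [3], [4, 3, 5, 4, 3]), (false, [0, 3], [4, 3, 5, 4, 3]), (false, [2, 3], [4, 3, 5, 4,
    3]), (true, [], [4, 3, 5, 4, 3]), (true, [0], [3, 5, 4, 3])]), (338, [(false, [], [3, 4, 3]),
    (false, [], [3, 5, 4, 3]), (false, [], [2, 3, 5, 4, 3]), (false, [0], [3, 5, 4, 3]), (false,
    [0], [2, 3, 5, 4, 3]), (false, [3], [3, 4, 3])]), (2580, [(false, [], [3, 4, 3]), (false, [],
    [3, 5, 4, 3]), (false, [0], [3, 5, 4, 3]), (false, [0], [2, 3, 5, 4, 3]), (false, [3], [3, 4,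
    3]), (false, [3], [4, 3, 5, 4, 3]), (false, [0, 3], [4, 3, 5, 4, 3]), (false, [2, 3], [4, 3,
    5, 4, 3]), (false, [3, 3], [4, 3, 5, 4, 3])]), (537, [(false, [3], [3, 4, 3]), (false, [3],
    [3, 5, 4, 3]), (false, [3, 3], [4, 3, 5, 4, 3]), (true, [], [3, 4, 3]), (true, [], [3, 5, 4,
    3]), (true, [], [2, 3, 5, 4, 3]), (true, [], [4, 3, 5, 4, 3]), (true, [0], [3, 5, 4, 3])]),
    (873, [(false, [], [1, 3, 4, 3]), (false, [], [3, 5, 4, 3]), (false, [], [2, 3, 5, 4, 3]),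
    (false, [], [4, 3, 5, 4, 3]), (false, [0], [2, 3, 5, 4, 3]), (false, [1], [4, 3, 5, 4, 3]),
    (false, [3], [3, 4, 3]), (false, [3], [3, 5, 4, 3]), (false, [0, 3], [4, 3, 5, 4, 3]), (true,
    [], [3, 5, 4, 3]), (true, [], [2, 3, 5, 4, 3]), (true, [0], [3, 5, 4, 3])]), (388, [(false,
    [], [3, 4, 3]), (false, [], [1, 3, 4, 3]), (false, [], [4, 3, 5, 4, 3]), (false, [0], [3, 5,
    4, 3]), (false, [3], [3, 5, 4, 3]), (false, [0, 3], [4, 3, 5, 4, 3]), (false, [3, 3], [4, 3,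
    5, 4, 3]), (true, [], [4, 3, 5, 4, 3]), (true, [0], [3, 5, 4, 3])]), (1327, [(false, [], [2,
    3, 5, 4, 3]), (false, [0], [3, 5, 4, 3]), (false, [0], [4, 3, 5, 4, 3]), (false, [3], [4, 3,
    5, 4, 3]), (false, [0, 3], [4, 3, 5, 4, 3]), (true, [], [3, 5, 4, 3]), (true, [0], [3, 5, 4,
    3])]), (950, [(false, [0], [3, 5, 4, 3]), (false, [0], [2, 3, 5, 4, 3]), (false, [3], [3, 4,
    3]), (false, [0, 3], [4, 3, 5, 4, 3]), (true, [], [4, 3, 5, 4, 3]), (true, [0], [3, 5, 4,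
    3])]), (297, [(false, [], [3, 4, 3]), (false, [], [1, 3, 4, 3]), (false, [], [3, 5, 4, 3]),
    (false, [0], [3, 5, 4, 3]), (false, [3], [3, 4, 3]), (false, [3], [4, 3, 5, 4, 3]), (false,
    [0, 3], [4, 3, 5, 4, 3]), (true, [], [1, 3, 4, 3]), (true, [], [4, 3, 5, 4, 3]), (true, [0],
    [3, 5, 4, 3])]), (1155, [(false, [], [3, 4, 3]), (false, [], [3, 5, 4, 3]), (false, [], [2, 3,
    5, 4, 3]), (false, [], [4, 3, 5, 4, 3]), (false, [0], [4, 3, 5, 4, 3]), (false, [3], [3, 5, 4,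
    3]), (false, [3], [4, 3, 5, 4, 3]), (false, [0, 3], [4, 3, 5, 4, 3]), (false, [2, 3], [4, 3,
    5, 4, 3]), (false, [3, 3], [4, 3, 5, 4, 3])]), (1154, [(false, [], [1, 3, 4, 3]), (false, [],
    [3, 5, 4, 3]), (false, [], [2, 3, 5, 4, 3]), (false, [], [4, 3, 5, 4, 3]), (false, [0], [3, 5,
    4, 3]), (false, [0], [4, 3, 5, 4, 3]), (false, [3], [3, 4, 3]), (false, [3], [3, 5, 4, 3]),
    (false, [3], [4, 3, 5, 4, 3]), (false, [0, 3], [4, 3, 5, 4, 3]), (false, [2, 3], [4, 3, 5, 4,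
    3]), (false, [3, 3], [4, 3, 5, 4, 3])]), (895, [(false, [], [3, 4, 3]), (false, [], [1, 3, 4,
    3]), (false, [], [3, 5, 4, 3]), (false, [], [2, 3, 5, 4, 3]), (false, [], [4, 3, 5, 4, 3]),
    (false, [0], [3, 5, 4, 3]), (false, [0], [2, 3, 5, 4, 3]), (false, [0], [4, 3, 5, 4, 3]),
    (false, [1], [4, 3, 5, 4, 3]), (false, [3], [4, 3, 5, 4, 3]), (false, [3, 3], [4, 3, 5, 4,
    3]), (true, [], [3, 5, 4, 3]), (true, [], [2, 3, 5, 4, 3]), (true, [], [4, 3, 5, 4, 3]),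
    (true, [0], [3, 5, 4, 3])]), (1219, [(false, [], [1, 3, 4, 3]), (false, [], [2, 3, 5, 4, 3]),
    (false, [], [4, 3, 5, 4, 3]), (false, [0], [3, 5, 4, 3]), (false, [0], [4, 3, 5, 4, 3]),
    (false, [3], [3, 4, 3]), (false, [3], [3, 5, 4, 3]), (false, [3], [4, 3, 5, 4, 3]), (false,
    [0, 3], [4, 3, 5, 4, 3]), (false, [2, 3], [4, 3, 5, 4, 3]), (false, [3, 3], [4, 3, 5, 4,
    3])]), (2145, [(false, [], [3, 4, 3]), (false, [], [1, 3, 4, 3]), (false, [], [3, 5, 4, 3]),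
    (false, [], [2, 3, 5, 4, 3]), (false, [0], [3, 5, 4, 3]), (false, [0], [2, 3, 5, 4, 3])]),
    (2113, [(false, [], [3, 5, 4, 3]), (false, [], [2, 3, 5, 4, 3]), (false, [0], [3, 5, 4, 3]),
    (false, [0], [2, 3, 5, 4, 3])])]

/-- norm certificates, type 110, parabolic 2 -/
def cert110_2 : List (ℕ × List (Bool × List ℕ × List ℕ)) :=
    [(1086, [(false, [], [3, 5, 4, 3]), (false, [], [2, 3, 5, 4, 3]), (false, [0], [4, 3, 5, 4,
    3]), (false, [1], [4, 3, 5, 4, 3]), (false, [5], [3, 4, 3]), (false, [5], [2, 3, 5, 4, 3]),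
    (true, [], [3, 5, 4, 3])]), (647, [(false, [], [1, 3, 4, 3]), (false, [], [3, 5, 4, 3]),
    (false, [], [2, 3, 5, 4, 3]), (false, [], [4, 3, 5, 4, 3]), (false, [0], [4, 3, 5, 4, 3]),
    (false, [5, 5], [4, 3, 5, 4, 3]), (true, [], [3, 4, 3]), (true, [], [2, 3, 5, 4, 3])]), (315,
    [(false, [], [1, 3, 4, 3]), (false, [], [3, 5, 4, 3]), (false, [], [2, 3, 5, 4, 3]), (false,
    [5], [3, 4, 3]), (false, [5], [4, 3, 5, 4, 3]), (false, [0, 5], [3, 5, 4, 3]), (false, [2, 5],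
    [4, 3, 5, 4, 3]), (true, [], [3, 5, 4, 3])]), (891, [(false, [], [3, 4, 3]), (false, [], [1,
    3, 4, 3]), (false, [], [3, 5, 4, 3]), (false, [], [2, 3, 5, 4, 3]), (false, [], [4, 3, 5, 4,
    3]), (false, [5], [3, 4, 3]), (false, [5], [3, 5, 4, 3]), (false, [5], [2, 3, 5, 4, 3]),
    (false, [5], [4, 3, 5, 4, 3]), (false, [2, 5], [4, 3, 5, 4, 3]), (true, [], [3, 5, 4, 3]),
    (true, [], [2, 3, 5, 4, 3])]), (692, [(false, [], [3, 4, 3]), (false, [], [1, 3, 4, 3]),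
    (false, [], [3, 5, 4, 3]), (false, [], [2, 3, 5, 4, 3]), (false, [], [4, 3, 5, 4, 3]), (false,
    [0], [2, 3, 5, 4, 3]), (false, [5], [3, 5, 4, 3]), (false, [5], [2, 3, 5, 4, 3]), (false, [5],
    [4, 3, 5, 4, 3]), (false, [2, 5], [4, 3, 5, 4, 3]), (false, [5, 5], [4, 3, 5, 4, 3]), (true,
    [], [1, 3, 4, 3])]), (862, [(false, [], [3, 4, 3]), (false, [], [1, 3, 4, 3]), (false, [], [3,
    5, 4, 3]), (false, [], [2, 3, 5, 4, 3]), (false, [], [4, 3, 5, 4, 3]), (false, [0], [2, 3, 5,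
    4, 3]), (false, [0], [4, 3, 5, 4, 3]), (false, [5], [3, 4, 3]), (false, [5], [3, 5, 4, 3]),
    (false, [5], [2, 3, 5, 4, 3]), (false, [5], [4, 3, 5, 4, 3]), (false, [2, 5], [4, 3, 5, 4,
    3]), (true, [], [1, 3, 4, 3]), (true, [], [3, 5, 4, 3]), (true, [], [2, 3, 5, 4, 3])]), (902,
    [(false, [], [3, 4, 3]), (false, [], [1, 3, 4, 3]), (false, [], [3, 5, 4, 3]), (false, [], [2,
    3, 5, 4, 3]), (false, [], [4, 3, 5, 4, 3]), (false, [0], [2, 3, 5, 4, 3]), (false, [1], [4, 3,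
    5, 4, 3]), (false, [5], [3, 5, 4, 3]), (false, [5], [4, 3, 5, 4, 3]), (false, [0, 5], [4, 3,
    5, 4, 3]), (true, [], [3, 4, 3]), (true, [], [3, 5, 4, 3]), (true, [], [2, 3, 5, 4, 3])]),
    (338, [(false, [], [1, 3, 4, 3]), (false, [], [3, 5, 4, 3]), (false, [], [2, 3, 5, 4, 3]),
    (false, [0], [2, 3, 5, 4, 3]), (false, [5], [3, 5, 4, 3]), (false, [0, 5], [3, 5, 4, 3])]),
    (2580, [(false, [], [1, 3, 4, 3]), (false, [], [2, 3, 5, 4, 3]), (false, [], [4, 3, 5, 4, 3]),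
    (false, [0], [2, 3, 5, 4, 3]), (false, [0], [4, 3, 5, 4, 3]), (false, [5], [3, 4, 3]), (false,
    [5], [3, 5, 4, 3]), (false, [0, 5], [3, 5, 4, 3])]), (537, [(false, [], [3, 4, 3]), (false,
    [], [1, 3, 4, 3]), (false, [], [2, 3, 5, 4, 3]), (false, [0], [2, 3, 5, 4, 3]), (false, [5],
    [4, 3, 5, 4, 3]), (false, [0, 5], [4, 3, 5, 4, 3])]), (873, [(false, [], [3, 4, 3]), (false,
    [], [3, 5, 4, 3]), (false, [], [2, 3, 5, 4, 3]), (false, [], [4, 3, 5, 4, 3]), (false, [1],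
    [4, 3, 5, 4, 3]), (false, [5], [3, 5, 4, 3]), (false, [0, 5], [3, 5, 4, 3]), (false, [0, 5],
    [4, 3, 5, 4, 3]), (true, [], [3, 4, 3]), (true, [], [1, 3, 4, 3])]), (388, [(false, [], [3, 5,
    4, 3]), (false, [], [2, 3, 5, 4, 3]), (false, [0, 5], [4, 3, 5, 4, 3]), (false, [2, 5], [4, 3,
    5, 4, 3]), (true, [], [1, 3, 4, 3]), (true, [], [3, 5, 4, 3])]), (1327, [(false, [], [3, 4,
    3]), (false, [], [1, 3, 4, 3]), (false, [], [2, 3, 5, 4, 3]), (false, [0], [3, 5, 4, 3]),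
    (false, [0], [2, 3, 5, 4, 3]), (false, [0], [4, 3, 5, 4, 3]), (false, [1], [4, 3, 5, 4, 3]),
    (false, [5], [3, 4, 3]), (false, [5], [3, 5, 4, 3]), (false, [0, 5], [3, 5, 4, 3]), (false,
    [2, 5], [4, 3, 5, 4, 3]), (false, [5, 5], [4, 3, 5, 4, 3]), (true, [], [3, 5, 4, 3])]), (950,
    [(false, [], [3, 4, 3]), (false, [], [4, 3, 5, 4, 3]), (false, [5], [3, 5, 4, 3]), (false,
    [5], [2, 3, 5, 4, 3]), (false, [0, 5], [3, 5, 4, 3]), (false, [5, 5], [4, 3, 5, 4, 3]), (true,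
    [], [3, 4, 3]), (true, [], [2, 3, 5, 4, 3])]), (297, [(false, [], [4, 3, 5, 4, 3]), (false,
    [0], [2, 3, 5, 4, 3]), (false, [1], [4, 3, 5, 4, 3]), (false, [5], [2, 3, 5, 4, 3]), (false,
    [0, 5], [3, 5, 4, 3]), (false, [0, 5], [4, 3, 5, 4, 3]), (false, [2, 5], [4, 3, 5, 4, 3]),
    (true, [], [3, 5, 4, 3])]), (1155, [(false, [], [3, 5, 4, 3]), (false, [0], [3, 5, 4, 3]),
    (false, [0, 5], [3, 5, 4, 3])]), (1154, [(false, [], [3, 5, 4, 3]), (false, [0], [3, 5, 4,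
    3]), (false, [5], [3, 5, 4, 3])]), (895, [(false, [], [3, 5, 4, 3]), (false, [], [4, 3, 5, 4,
    3]), (false, [0], [3, 5, 4, 3]), (false, [0], [4, 3, 5, 4, 3]), (false, [5], [3, 4, 3]),
    (false, [5], [4, 3, 5, 4, 3]), (false, [2, 5], [4, 3, 5, 4, 3]), (false, [5, 5], [4, 3, 5, 4,
    3]), (true, [], [1, 3, 4, 3]), (true, [], [3, 5, 4, 3]), (true, [], [2, 3, 5, 4, 3])]), (1219,
    [(false, [0], [3, 5, 4, 3]), (false, [5], [3, 5, 4, 3])]), (2145, [(false, [], [3, 4, 3]),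
    (false, [], [1, 3, 4, 3]), (false, [], [3, 5, 4, 3]), (false, [], [2, 3, 5, 4, 3]), (false,
    [0], [3, 5, 4, 3]), (false, [0], [2, 3, 5, 4, 3])]), (2113, [(false, [], [3, 5, 4, 3]),
    (false, [], [2, 3, 5, 4, 3]), (false, [0], [3, 5, 4, 3]), (false, [0], [2, 3, 5, 4, 3])])]

/-- pencils in the order of elimination, type 011 -/
def ord011 : List (ℕ × ℕ × List ℕ) :=
    [(1410, 0, [3, 1, 4, 5, 4]), (1490, 0, [2, 3, 5, 1, 4, 5]), (1154, 0, [3, 4, 5, 4]), (1320, 2,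
    [3, 5, 4, 3]), (2114, 0, [3, 4, 5]), (1322, 1, [3, 1, 4, 5, 4, 0, 3, 4]), (2370, 0, [3, 4, 2,
    5]), (2086, 2, [1, 3, 4, 3]), (1234, 0, [3, 4, 2, 5, 4]), (1327, 2, [2, 3, 5, 1, 4, 3]), (632,
    2, [0, 1, 4, 3, 5, 4, 3]), (1064, 1, [3, 4, 3, 5, 4, 3]), (1066, 1, [1, 3, 4, 5, 4, 0, 3, 4]),
    (2084, 1, [3, 4, 3, 5, 4]), (634, 0, [3, 1, 4, 3, 5, 1, 4, 3]), (2340, 1, [0, 4, 3, 5, 1, 4,
    5]), (1325, 2, [0, 2, 5, 4, 0, 3, 4]), (646, 2, [1, 4, 3, 5, 4]), (2342, 1, [3, 4, 0, 2, 3, 5,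
    4]), (639, 2, [0, 1, 2, 4, 3, 5, 4, 3]), (1071, 1, [3, 4, 2, 3, 5, 4, 3]), (647, 2, [0, 1, 4,
    3, 5, 4]), (376, 1, [1, 4, 3, 5, 4, 3]), (616, 2, [1, 4, 3, 5, 4, 3]), (679, 2, [4, 4, 0, 2,
    3, 5, 4]), (586, 0, [1, 3, 4, 5, 4, 0, 3, 4]), (676, 2, [4, 2, 3, 5, 4]), (890, 0, [0, 1, 3,
    4, 2, 3, 5, 4, 3]), (637, 2, [1, 4, 2, 5, 4, 0, 3, 4]), (660, 0, [0, 4, 3, 5, 1, 4, 5]),
    (1069, 1, [0, 4, 3, 5, 1, 4, 3, 5]), (390, 1, [1, 4, 3, 5, 4]), (662, 2, [1, 4, 3, 5, 1, 4]),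
    (383, 1, [1, 4, 3, 5, 1, 4, 3]), (623, 2, [1, 4, 3, 5, 1, 4, 3]), (391, 1, [0, 1, 4, 3, 5,
    4]), (622, 2, [1, 2, 4, 3, 5, 4, 3]), (360, 0, [1, 4, 3, 5, 4, 3]), (935, 1, [0, 3, 4, 0, 2,
    3, 5, 4]), (842, 0, [0, 4, 3, 4, 2, 5, 4, 3]), (590, 2, [4, 2, 3, 5, 4, 3]), (932, 0, [0, 3,
    4, 2, 3, 5, 4]), (916, 0, [4, 3, 5, 1, 4, 5]), (893, 1, [4, 3, 5, 1, 4, 3, 5]), (589, 0, [3,
    4, 2, 3, 5, 1, 4, 3]), (406, 0, [5, 4, 0, 2, 3, 5, 4]), (617, 2, [5, 4, 0, 2, 3, 5, 4]), (367,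
    0, [1, 4, 3, 5, 1, 4, 3]), (407, 0, [0, 1, 4, 3, 5, 1, 4]), (366, 1, [1, 2, 4, 3, 5, 4, 3]),
    (919, 0, [0, 3, 4, 0, 2, 3, 5, 4]), (846, 1, [0, 3, 4, 2, 3, 5, 4, 3]), (845, 0, [2, 4, 3, 5,
    1, 4, 3, 5]), (585, 2, [2, 4, 3, 5, 1, 4, 3]), (361, 1, [5, 4, 0, 2, 3, 5, 4]), (382, 0, [1,
    4, 5, 4, 0, 3, 4]), (894, 0, [1, 5, 4, 0, 3, 4, 5, 4]), (841, 1, [2, 4, 3, 5, 1, 4, 3, 5]),
    (377, 2, [1, 4, 5, 4, 0, 3, 4]), (694, 0, [1, 3, 4, 2, 3, 5, 4]), (950, 0, [0, 3, 5, 4, 0, 2,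
    3, 5, 4]), (877, 1, [2, 5, 4, 0, 3, 4, 5, 4]), (621, 0, [1, 4, 3, 4, 2, 5, 4, 3]), (902, 0,
    [0, 3, 1, 4, 3, 5, 4]), (875, 1, [0, 3, 1, 4, 5, 4, 0, 3, 4]), (878, 1, [4, 0, 2, 3, 4, 5, 4,
    3]), (1341, 0, [2, 5, 4, 0, 3, 4, 5]), (1170, 0, [2, 3, 4, 2, 5, 4]), (619, 1, [4, 3, 4, 2, 5,
    4, 3]), (872, 1, [4, 0, 3, 4, 5, 4, 3]), (1339, 2, [0, 3, 5, 4, 0, 3]), (1085, 0, [3, 3, 4, 2,
    5, 4, 3]), (1342, 0, [0, 2, 3, 5, 1, 4, 5]), (402, 0, [3, 5, 1, 4]), (1067, 0, [0, 1, 5, 4, 0,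
    3, 4, 5]), (1336, 2, [0, 3, 5, 4, 3]), (315, 0, [0, 3, 5, 4, 3]), (1086, 0, [0, 3, 4, 2, 5,
    4]), (1491, 2, [0, 2, 3, 5, 1, 4]), (386, 0, [3, 5, 4]), (299, 0, [0, 5, 4, 0, 3, 4]), (1065,
    2, [0, 5, 4, 0, 3, 4]), (1411, 2, [0, 3, 5, 4]), (312, 0, [0, 3, 5, 4]), (1235, 1, [0, 2, 3,
    4, 2, 5, 4]), (296, 0, [3, 5, 4, 3]), (297, 1, [0, 5, 4, 0, 3, 4]), (1081, 2, [5, 4, 0, 3,
    4]), (387, 1, [0, 3, 5, 4]), (1171, 2, [0, 3, 5, 1, 4]), (1082, 2, [0, 3, 5, 1, 4, 3]), (298,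
    1, [3, 5, 4, 0, 3]), (313, 0, [5, 4, 0, 3, 4]), (403, 0, [0, 3, 5, 1, 4]), (381, 0, [1, 4, 2,
    5, 4, 0, 3, 4]), (365, 0, [1, 0, 4, 2, 3, 5, 4]), (423, 1, [4, 4, 0, 2, 3, 5, 4]), (363, 1,
    [0, 5, 1, 4, 3, 5, 1, 4]), (378, 1, [5, 1, 4, 3, 5, 4]), (438, 1, [1, 4, 2, 3, 5, 4]), (439,
    0, [0, 1, 4, 2, 3, 5, 4]), (379, 0, [0, 5, 1, 4, 3, 5, 4]), (633, 0, [1, 4, 5, 4, 0, 3, 4,
    5]), (663, 0, [0, 1, 4, 3, 5, 1, 4, 5]), (362, 2, [5, 1, 4, 3, 5, 4]), (422, 2, [1, 4, 2, 3,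
    5, 4]), (1321, 0, [0, 5, 4, 0, 3, 4, 5]), (695, 0, [2, 3, 1, 4, 3, 5, 4]), (635, 0, [3, 5, 1,
    4, 3, 5, 4]), (380, 2, [0, 1, 4, 2, 3, 5, 4, 3]), (638, 1, [0, 4, 3, 3, 4, 2, 5, 4, 3]), (364,
    2, [1, 4, 2, 3, 5, 4, 3]), (618, 0, [3, 4, 5, 4, 0, 3, 4]), (678, 0, [1, 3, 4, 3, 5, 1, 4]),
    (1323, 0, [3, 5, 1, 4, 5]), (636, 1, [4, 0, 3, 5, 1, 4, 3, 5]), (1326, 0, [2, 3, 1, 4, 5, 4,
    3]), (1070, 0, [2, 3, 4, 5, 4, 3]), (620, 1, [2, 3, 4, 3, 5, 4, 3]), (1426, 1, [3, 5, 1, 4,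
    5]), (1324, 0, [2, 3, 1, 4, 5, 4]), (1068, 0, [2, 3, 4, 5, 4]), (1474, 2, [2, 3, 5, 4]),
    (1563, 0, [5, 1, 4, 3, 5]), (539, 0, [5, 1, 4, 3]), (1562, 0, [5, 1, 4, 5]), (538, 0, [5, 1,
    4]), (1697, 1, [5, 1, 4, 5]), (673, 1, [5, 4]), (2657, 2, [1, 4]), (2583, 2, [0, 1, 4, 3]),
    (2067, 0, [3, 5]), (2081, 0, [5]), (2582, 2, [1, 4, 3]), (609, 0, [1, 4]), (535, 1, [3, 1, 4,
    3]), (2359, 0, [0, 3, 4, 2, 3, 5]), (2371, 2, [0, 3, 4]), (1057, 0, []), (1043, 0, [3]),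
    (2066, 2, [3]), (534, 1, [1, 3, 4, 3]), (311, 0, [0, 3, 4, 3]), (2356, 2, [0, 3, 4, 3]), (323,
    0, [0, 3, 4]), (1042, 1, [3, 4]), (294, 0, [3, 4, 3]), (308, 1, [3, 4, 3]), (322, 0, [3, 4]),
    (3091, 0, [2, 3, 5]), (467, 0, [0, 2, 3, 5, 1, 4]), (3090, 1, [2, 3, 5, 4]), (318, 0, [2, 5,
    4, 0, 3, 4]), (3105, 1, [2, 5, 4]), (302, 0, [2, 3, 5, 4, 3]), (450, 0, [2, 3, 5, 4]), (317,
    1, [0, 2, 5, 4, 0, 3, 4]), (705, 0, [2, 5, 4]), (300, 1, [2, 3, 5, 4, 3]), (541, 2, [2, 5, 4,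
    0, 3]), (1729, 0, [1, 4, 2, 5, 4]), (540, 2, [2, 5, 4, 3]), (1565, 0, [1, 4, 2, 5, 4, 3]),
    (537, 2, [5, 4, 0, 3]), (536, 2, [5, 4, 3]), (1561, 0, [1, 4, 5, 4, 3]), (641, 2, [5, 4]),
    (1560, 0, [1, 4, 5, 4]), (1665, 1, [1, 4, 5, 4]), (466, 0, [2, 3, 5, 1, 4]), (301, 0, [0, 2,
    5, 4, 0, 3, 4]), (1761, 0, [1, 2, 4, 5, 4]), (303, 1, [2, 3, 5, 1, 4, 3]), (1567, 2, [0, 1, 2,
    5, 4, 3]), (737, 0, [1, 2, 5, 4]), (1566, 2, [1, 2, 5, 4, 3]), (543, 0, [1, 2, 5, 4, 3]),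
    (1185, 0, [1, 5, 1, 4, 5]), (1249, 0, [4, 2, 5, 4]), (1050, 1, [1, 5, 1, 4, 3, 5, 4]), (1051,
    1, [4, 2, 3, 5, 1, 4, 3]), (1054, 1, [4, 2, 3, 5, 4, 3]), (330, 0, [1, 5, 1, 4, 3, 5, 4]),
    (587, 0, [4, 3, 4, 2, 5, 4, 3]), (331, 0, [4, 2, 3, 5, 1, 4, 3]), (1055, 1, [0, 4, 2, 3, 5, 4,
    3]), (334, 0, [4, 2, 3, 5, 4]), (591, 0, [3, 4, 2, 3, 5, 4]), (335, 0, [0, 4, 2, 3, 5, 4]),
    (420, 1, [4, 2, 3, 5, 4]), (692, 2, [0, 4, 2, 3, 5, 4]), (2071, 0, [1, 4, 3, 5]), (2070, 0,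
    [1, 4, 5]), (577, 0, [4]), (2625, 0, [4, 2, 5]), (532, 0, [4, 3]), (2580, 0, [4, 2, 3, 5]),
    (533, 1, [0, 4, 0, 3, 4]), (2581, 1, [0, 4, 0, 2, 3, 5, 4]), (309, 2, [4, 0, 3, 4]), (339, 2,
    [0, 3, 1, 4]), (421, 2, [0, 4, 0, 2, 3, 5, 4]), (310, 2, [0, 3, 1, 4, 3]), (2357, 0, [2, 4, 0,
    3, 4, 5]), (351, 2, [4, 2, 5, 4, 0, 3, 4]), (2387, 1, [0, 3, 5, 1, 4, 5]), (346, 2, [1, 5, 1,
    4, 3, 5, 1, 4]), (933, 0, [4, 0, 3, 4, 2, 5, 4]), (2358, 1, [1, 4, 3, 5, 1, 4, 5]), (863, 1,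
    [4, 3, 3, 4, 2, 5, 4, 3]), (1427, 0, [0, 3, 5, 1, 4, 5]), (858, 1, [4, 0, 3, 4, 2, 5, 4, 3]),
    (918, 0, [5, 4, 0, 2, 3, 4, 5, 4]), (879, 0, [1, 4, 3, 5, 1, 4, 3, 5]), (1338, 0, [5, 4, 0, 3,
    4, 5]), (873, 1, [5, 4, 0, 3, 4, 5, 4]), (338, 0, [3, 1, 4]), (2130, 0, [3, 1, 4, 5]), (295,
    0, [0, 4, 0, 3, 4]), (2087, 0, [0, 4, 0, 3, 4, 5]), (293, 2, [0, 4, 0, 3, 4]), (2085, 1, [0,
    4, 0, 3, 4, 5, 4]), (677, 0, [0, 4, 0, 2, 3, 4, 5, 4]), (607, 0, [3, 1, 4, 5, 4, 0, 3, 4]),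
    (1083, 0, [0, 3, 4, 5, 4, 3]), (1155, 1, [0, 3, 4, 5, 4]), (451, 0, [0, 2, 3, 5, 4]), (951, 0,
    [0, 1, 3, 4, 3, 5, 1, 4]), (891, 0, [0, 3, 4, 5, 4, 0, 3, 4]), (1080, 1, [0, 3, 4, 3, 5, 4,
    3]), (903, 0, [0, 1, 3, 4, 3, 5, 4]), (1219, 0, [0, 2, 3, 4, 5, 4]), (316, 2, [0, 2, 3, 5, 4,
    3]), (892, 1, [0, 2, 3, 4, 3, 5, 4, 3]), (888, 0, [0, 1, 3, 4, 3, 5, 4, 3]), (319, 2, [0, 1,
    2, 3, 5, 4, 3]), (1084, 0, [0, 2, 3, 4, 5, 4, 3]), (895, 1, [0, 3, 4, 3, 5, 1, 4, 3]), (2131,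
    0, [0, 3, 1, 4, 5]), (2102, 0, [4, 0, 3, 4, 5]), (2101, 1, [4, 0, 3, 4, 5, 4]), (901, 0, [4,
    0, 3, 4, 5, 4]), (861, 0, [4, 0, 3, 4, 5, 4, 3]), (645, 0, [0, 4, 0, 3, 4, 5, 4]), (605, 0,
    [0, 4, 0, 3, 4, 5, 4, 3]), (856, 2, [4, 0, 3, 5, 4, 3]), (934, 0, [0, 2, 3, 1, 4, 3, 5, 4]),
    (874, 0, [0, 3, 5, 1, 4, 3, 5, 4]), (1475, 0, [0, 2, 3, 1, 4, 5, 4]), (1343, 0, [0, 2, 3, 1,
    4, 5, 4, 3]), (876, 1, [2, 4, 0, 3, 4, 5, 4, 3]), (588, 0, [3, 4, 3, 5, 4, 3]), (844, 0, [0,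
    3, 4, 3, 5, 4, 3]), (584, 0, [3, 4, 3, 5, 4]), (840, 0, [0, 3, 4, 3, 5, 4]), (644, 2, [4, 3,
    5, 4]), (900, 1, [0, 3, 4, 3, 5, 4]), (843, 0, [4, 2, 3, 5, 1, 4, 3, 5]), (948, 0, [0, 3, 4,
    3, 5, 1, 4]), (2386, 0, [2, 3, 1, 4, 5]), (2343, 0, [0, 2, 4, 0, 3, 4, 5]), (2341, 1, [4, 0,
    3, 5, 1, 4, 5]), (949, 0, [4, 0, 2, 3, 4, 5, 4]), (859, 2, [1, 0, 5, 1, 4, 3, 5, 4]), (693, 0,
    [0, 4, 0, 3, 4, 2, 5, 4]), (862, 2, [4, 0, 2, 3, 5, 4, 3]), (603, 0, [1, 3, 5, 1, 4, 3, 5,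
    4]), (857, 2, [4, 5, 4, 0, 3, 4]), (329, 0, [2, 4, 3, 5, 1, 4, 3]), (917, 2, [2, 4, 0, 3, 5,
    4]), (860, 2, [2, 4, 0, 3, 5, 4, 3]), (345, 0, [4, 5, 4, 0, 3, 4]), (333, 0, [4, 3, 5, 1, 4]),
    (405, 1, [4, 0, 3, 5, 4]), (348, 1, [2, 4, 3, 5, 4, 3]), (1053, 0, [2, 4, 5, 4, 3]), (404, 1,
    [4, 3, 5, 4]), (2069, 0, [4, 3, 5]), (1052, 0, [2, 4, 5, 4]), (2068, 0, [4, 5]), (1217, 1, [4,
    5, 4]), (1153, 0, [4, 5, 4]), (1049, 0, [4, 5, 4, 3]), (332, 0, [4, 3, 5, 4, 3]), (1048, 1,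
    [4, 3, 5, 4, 3]), (328, 0, [4, 3, 5, 4]), (601, 0, [4, 5, 4, 0, 3, 4, 5]), (604, 0, [4, 0, 3,
    5, 1, 4, 5]), (437, 0, [4, 0, 2, 3, 5, 4]), (347, 0, [1, 0, 5, 1, 4, 3, 5, 4]), (2103, 0, [0,
    3, 4, 3, 5]), (2100, 0, [0, 3, 4, 5]), (389, 0, [4, 0, 3, 5, 4]), (349, 0, [4, 0, 3, 5, 4,
    3])]

/-- norm certificates, type 011, parabolic 0 -/
def cert011_0 : List (ℕ × List (Bool × List ℕ × List ℕ)) :=
    [(344, [(false, [], [2, 3, 5, 4, 3]), (false, [], [4, 3, 5, 4, 3]), (false, [0], [1, 3, 4, 5,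
    4, 0, 3, 4]), (false, [3], [4, 3, 5, 4, 3]), (false, [3], [1, 3, 4, 5, 4, 0, 3, 4]), (false,
    [0, 3], [4, 3, 5, 4, 3]), (false, [0, 3], [3, 4, 3, 5, 4, 3]), (false, [3, 3], [3, 4, 3, 5, 4,
    3]), (true, [], [2, 3, 5, 4, 3]), (true, [], [4, 3, 5, 4, 3]), (true, [], [1, 5, 1, 4, 3, 5,
    4])]), (2115, [(false, [], [4, 3, 5, 4, 3]), (false, [], [1, 5, 1, 4, 3, 5, 4]), (false, [0],
    [4, 3, 5, 4, 3]), (false, [3], [1, 5, 1, 4, 3, 5, 4]), (false, [0, 3], [3, 4, 3, 5, 4, 3]),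
    (false, [3, 3], [3, 4, 3, 5, 4, 3])]), (350, [(false, [], [4, 3, 5, 4, 3]), (false, [], [1, 5,
    1, 4, 3, 5, 4]), (false, [], [3, 4, 3, 5, 4, 3]), (false, [], [1, 3, 4, 5, 4, 0, 3, 4]),
    (false, [0], [3, 4, 3, 5, 4, 3]), (false, [1], [3, 4, 3, 5, 4, 3]), (false, [3], [1, 5, 1, 4,
    3, 5, 4]), (false, [3], [3, 4, 3, 5, 4, 3]), (false, [3], [1, 3, 4, 5, 4, 0, 3, 4]), (false,
    [0, 3], [3, 4, 3, 5, 4, 3]), (false, [3, 3], [3, 4, 3, 5, 4, 3]), (true, [], [3, 4, 3, 5, 4,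
    3])]), (661, [(false, [], [2, 3, 5, 4, 3]), (false, [], [1, 3, 4, 5, 4, 0, 3, 4]), (false,
    [0], [4, 3, 5, 4, 3]), (false, [0], [3, 4, 3, 5, 4, 3]), (false, [0], [1, 3, 4, 5, 4, 0, 3,
    4]), (false, [3], [4, 3, 5, 4, 3]), (false, [3], [1, 5, 1, 4, 3, 5, 4]), (false, [0, 3], [4,
    3, 5, 4, 3]), (true, [], [4, 3, 5, 4, 3])]), (388, [(false, [], [1, 5, 1, 4, 3, 5, 4]),
    (false, [], [1, 3, 4, 5, 4, 0, 3, 4]), (false, [0], [4, 3, 5, 4, 3]), (false, [0], [3, 4, 3,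
    5, 4, 3]), (false, [0], [1, 3, 4, 5, 4, 0, 3, 4]), (false, [3], [4, 3, 5, 4, 3]), (false, [3],
    [3, 4, 3, 5, 4, 3]), (false, [3], [1, 3, 4, 5, 4, 0, 3, 4]), (false, [0, 3], [4, 3, 5, 4, 3]),
    (false, [0, 3], [3, 4, 3, 5, 4, 3]), (false, [3, 3], [3, 4, 3, 5, 4, 3]), (true, [], [3, 4, 3,
    5, 4, 3])]), (2113, [(false, [], [4, 3, 5, 4, 3]), (false, [], [1, 3, 4, 5, 4, 0, 3, 4]),
    (false, [0], [4, 3, 5, 4, 3]), (false, [0], [1, 3, 4, 5, 4, 0, 3, 4]), (false, [3], [4, 3, 5,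
    4, 3]), (false, [0, 3], [4, 3, 5, 4, 3])]), (606, [(false, [], [2, 3, 5, 4, 3]), (false, [],
    [4, 3, 5, 4, 3]), (false, [0], [4, 3, 5, 4, 3]), (false, [0], [3, 4, 3, 5, 4, 3]), (false,
    [0], [1, 3, 4, 5, 4, 0, 3, 4]), (false, [1], [3, 4, 3, 5, 4, 3]), (false, [3], [1, 3, 4, 5, 4,
    0, 3, 4]), (false, [0, 3], [4, 3, 5, 4, 3]), (false, [2, 3], [3, 4, 3, 5, 4, 3]), (true, [],
    [4, 3, 5, 4, 3])]), (847, [(false, [], [4, 3, 5, 4, 3]), (false, [], [1, 3, 4, 5, 4, 0, 3,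
    4]), (false, [0], [3, 4, 3, 5, 4, 3]), (false, [0], [1, 3, 4, 5, 4, 0, 3, 4]), (false, [3],
    [4, 3, 5, 4, 3]), (false, [3], [1, 5, 1, 4, 3, 5, 4]), (false, [3], [3, 4, 3, 5, 4, 3]),
    (false, [3], [1, 3, 4, 5, 4, 0, 3, 4]), (false, [0, 3], [4, 3, 5, 4, 3]), (true, [], [2, 3, 5,
    4, 3]), (true, [], [3, 4, 3, 5, 4, 3])]), (1340, [(false, [], [4, 3, 5, 4, 3]), (false, [],
    [1, 5, 1, 4, 3, 5, 4]), (false, [], [3, 4, 3, 5, 4, 3]), (false, [], [1, 3, 4, 5, 4, 0, 3,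
    4]), (false, [0], [4, 3, 5, 4, 3]), (false, [0], [1, 3, 4, 5, 4, 0, 3, 4]), (false, [3], [4,
    3, 5, 4, 3]), (false, [2, 3], [3, 4, 3, 5, 4, 3]), (false, [3, 3], [3, 4, 3, 5, 4, 3]), (true,
    [], [2, 3, 5, 4, 3]), (true, [], [4, 3, 5, 4, 3]), (true, [], [1, 5, 1, 4, 3, 5, 4]), (true,
    [], [3, 4, 3, 5, 4, 3])]), (600, [(false, [], [2, 3, 5, 4, 3]), (false, [], [4, 3, 5, 4, 3]),
    (false, [], [1, 5, 1, 4, 3, 5, 4]), (false, [], [1, 3, 4, 5, 4, 0, 3, 4]), (false, [0], [4, 3,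
    5, 4, 3]), (false, [1], [3, 4, 3, 5, 4, 3]), (false, [3], [4, 3, 5, 4, 3]), (false, [0, 3],
    [3, 4, 3, 5, 4, 3]), (false, [2, 3], [3, 4, 3, 5, 4, 3]), (false, [3, 3], [3, 4, 3, 5, 4, 3]),
    (true, [], [2, 3, 5, 4, 3]), (true, [], [1, 5, 1, 4, 3, 5, 4]), (true, [], [3, 4, 3, 5, 4,
    3])]), (1087, [(false, [], [4, 3, 5, 4, 3]), (false, [], [1, 5, 1, 4, 3, 5, 4]), (false, [],
    [3, 4, 3, 5, 4, 3]), (false, [], [1, 3, 4, 5, 4, 0, 3, 4]), (false, [0], [3, 4, 3, 5, 4, 3]),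
    (false, [3], [3, 4, 3, 5, 4, 3]), (false, [3], [1, 3, 4, 5, 4, 0, 3, 4]), (false, [2, 3], [3,
    4, 3, 5, 4, 3]), (false, [3, 3], [3, 4, 3, 5, 4, 3]), (true, [], [2, 3, 5, 4, 3]), (true, [],
    [4, 3, 5, 4, 3]), (true, [], [1, 5, 1, 4, 3, 5, 4]), (true, [], [3, 4, 3, 5, 4, 3])]), (602,
    [(false, [], [4, 3, 5, 4, 3]), (false, [], [3, 4, 3, 5, 4, 3]), (false, [], [1, 3, 4, 5, 4, 0,
    3, 4]), (false, [0], [4, 3, 5, 4, 3]), (false, [0], [3, 4, 3, 5, 4, 3]), (false, [0], [1, 3,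
    4, 5, 4, 0, 3, 4]), (false, [3], [4, 3, 5, 4, 3]), (false, [3], [1, 3, 4, 5, 4, 0, 3, 4]),
    (false, [0, 3], [3, 4, 3, 5, 4, 3]), (false, [3, 3], [3, 4, 3, 5, 4, 3]), (true, [], [2, 3, 5,
    4, 3]), (true, [], [1, 5, 1, 4, 3, 5, 4]), (true, [], [3, 4, 3, 5, 4, 3])]), (1337, [(false,
    [], [1, 3, 4, 5, 4, 0, 3, 4]), (false, [0], [4, 3, 5, 4, 3]), (false, [0], [1, 3, 4, 5, 4, 0,
    3, 4]), (false, [1], [3, 4, 3, 5, 4, 3]), (false, [3], [3, 4, 3, 5, 4, 3]), (false, [3], [1,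
    3, 4, 5, 4, 0, 3, 4]), (false, [0, 3], [3, 4, 3, 5, 4, 3]), (false, [2, 3], [3, 4, 3, 5, 4,
    3]), (true, [], [2, 3, 5, 4, 3]), (true, [], [4, 3, 5, 4, 3]), (true, [], [1, 5, 1, 4, 3, 5,
    4]), (true, [], [3, 4, 3, 5, 4, 3])]), (2145, [(false, [], [1, 5, 1, 4, 3, 5, 4]), (false,
    [0], [3, 4, 3, 5, 4, 3]), (false, [1], [3, 4, 3, 5, 4, 3]), (false, [3], [4, 3, 5, 4, 3]),
    (false, [0, 3], [4, 3, 5, 4, 3])]), (436, [(false, [], [2, 3, 5, 4, 3]), (false, [], [4, 3, 5,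
    4, 3]), (false, [0], [4, 3, 5, 4, 3]), (false, [3], [1, 5, 1, 4, 3, 5, 4]), (false, [3], [1,
    3, 4, 5, 4, 0, 3, 4]), (false, [0, 3], [3, 4, 3, 5, 4, 3]), (false, [3, 3], [3, 4, 3, 5, 4,
    3]), (true, [], [2, 3, 5, 4, 3]), (true, [], [4, 3, 5, 4, 3]), (true, [], [1, 5, 1, 4, 3, 5,
    4])]), (542, [(false, [], [2, 3, 5, 4, 3]), (false, [], [4, 3, 5, 4, 3]), (false, [], [3, 4,
    3, 5, 4, 3]), (false, [], [1, 3, 4, 5, 4, 0, 3, 4]), (false, [0], [4, 3, 5, 4, 3]), (false,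
    [3], [1, 5, 1, 4, 3, 5, 4]), (false, [0, 3], [4, 3, 5, 4, 3])]), (1564, [(false, [0], [4, 3,
    5, 4, 3]), (false, [3], [4, 3, 5, 4, 3]), (false, [3], [1, 5, 1, 4, 3, 5, 4]), (false, [3],
    [3, 4, 3, 5, 4, 3]), (true, [], [2, 3, 5, 4, 3]), (true, [], [4, 3, 5, 4, 3]), (true, [], [1,
    5, 1, 4, 3, 5, 4]), (true, [], [3, 4, 3, 5, 4, 3])]), (292, [(false, [], [4, 3, 5, 4, 3]),
    (false, [], [1, 5, 1, 4, 3, 5, 4]), (false, [], [3, 4, 3, 5, 4, 3]), (false, [], [1, 3, 4, 5,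
    4, 0, 3, 4]), (false, [0], [3, 4, 3, 5, 4, 3]), (false, [0], [1, 3, 4, 5, 4, 0, 3, 4]),
    (false, [3], [4, 3, 5, 4, 3]), (false, [3], [1, 5, 1, 4, 3, 5, 4])]), (1218, [(false, [], [2,
    3, 5, 4, 3]), (false, [], [3, 4, 3, 5, 4, 3]), (false, [3], [1, 5, 1, 4, 3, 5, 4]), (false,
    [3], [1, 3, 4, 5, 4, 0, 3, 4]), (false, [0, 3], [4, 3, 5, 4, 3]), (false, [0, 3], [3, 4, 3, 5,
    4, 3]), (false, [2, 3], [3, 4, 3, 5, 4, 3]), (false, [3, 3], [3, 4, 3, 5, 4, 3]), (true, [],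
    [2, 3, 5, 4, 3]), (true, [], [4, 3, 5, 4, 3]), (true, [], [1, 5, 1, 4, 3, 5, 4]), (true, [],
    [3, 4, 3, 5, 4, 3])]), (314, [(false, [], [4, 3, 5, 4, 3]), (false, [], [3, 4, 3, 5, 4, 3]),
    (false, [], [1, 3, 4, 5, 4, 0, 3, 4]), (false, [0], [4, 3, 5, 4, 3]), (false, [3], [4, 3, 5,
    4, 3]), (false, [3], [1, 5, 1, 4, 3, 5, 4]), (false, [3], [3, 4, 3, 5, 4, 3]), (false, [3],
    [1, 3, 4, 5, 4, 0, 3, 4]), (false, [0, 3], [4, 3, 5, 4, 3])]), (889, [(false, [], [4, 3, 5, 4,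
    3]), (false, [], [1, 5, 1, 4, 3, 5, 4]), (false, [], [3, 4, 3, 5, 4, 3]), (false, [], [1, 3,
    4, 5, 4, 0, 3, 4]), (false, [1], [3, 4, 3, 5, 4, 3]), (false, [3], [1, 5, 1, 4, 3, 5, 4]),
    (false, [3], [3, 4, 3, 5, 4, 3]), (false, [3], [1, 3, 4, 5, 4, 0, 3, 4]), (false, [0, 3], [3,
    4, 3, 5, 4, 3]), (true, [], [2, 3, 5, 4, 3]), (true, [], [3, 4, 3, 5, 4, 3])])]

/-- norm certificates, type 011, parabolic 2 -/
def cert011_2 : List (ℕ × List (Bool × List ℕ × List ℕ)) :=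
    [(344, [(false, [], [2, 3, 5, 4, 3]), (false, [], [3, 4, 3, 5, 4, 3]), (false, [], [1, 3, 4,
    5, 4, 0, 3, 4]), (false, [0], [4, 3, 5, 4, 3]), (false, [5, 5], [3, 4, 3, 5, 4, 3]), (true,
    [], [4, 3, 5, 4, 3]), (true, [], [3, 4, 3, 5, 4, 3]), (true, [], [1, 3, 4, 5, 4, 0, 3, 4]),
    (true, [0], [3, 4, 3, 5, 4, 3])]), (2115, [(false, [], [2, 3, 5, 4, 3]), (false, [], [3, 4, 3,
    5, 4, 3]), (false, [5], [1, 3, 4, 5, 4, 0, 3, 4]), (false, [0, 5], [3, 4, 3, 5, 4, 3]),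
    (false, [5, 5], [3, 4, 3, 5, 4, 3]), (true, [], [4, 3, 5, 4, 3]), (true, [], [1, 3, 4, 5, 4,
    0, 3, 4]), (true, [0], [3, 4, 3, 5, 4, 3])]), (350, [(false, [], [4, 3, 5, 4, 3]), (false, [],
    [1, 3, 4, 5, 4, 0, 3, 4]), (false, [0], [4, 3, 5, 4, 3]), (false, [0], [1, 3, 4, 5, 4, 0, 3,
    4]), (false, [5], [4, 3, 5, 4, 3]), (false, [0, 5], [3, 4, 3, 5, 4, 3]), (true, [], [4, 3, 5,
    4, 3]), (true, [], [3, 4, 3, 5, 4, 3]), (true, [], [1, 3, 4, 5, 4, 0, 3, 4]), (true, [0], [3,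
    4, 3, 5, 4, 3])]), (661, [(false, [], [2, 3, 5, 4, 3]), (false, [0], [3, 4, 3, 5, 4, 3]),
    (false, [1], [3, 4, 3, 5, 4, 3]), (false, [0, 5], [3, 4, 3, 5, 4, 3]), (false, [2, 5], [3, 4,
    3, 5, 4, 3]), (true, [], [4, 3, 5, 4, 3])]), (388, [(false, [], [3, 4, 3, 5, 4, 3]), (false,
    [0], [4, 3, 5, 4, 3]), (false, [0], [1, 3, 4, 5, 4, 0, 3, 4]), (false, [5], [4, 3, 5, 4, 3]),
    (false, [2, 5], [3, 4, 3, 5, 4, 3]), (true, [], [4, 3, 5, 4, 3]), (true, [], [3, 4, 3, 5, 4,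
    3]), (true, [], [1, 3, 4, 5, 4, 0, 3, 4]), (true, [0], [3, 4, 3, 5, 4, 3])]), (2113, [(false,
    [], [2, 3, 5, 4, 3]), (false, [], [3, 4, 3, 5, 4, 3]), (false, [], [1, 3, 4, 5, 4, 0, 3, 4]),
    (false, [0], [3, 4, 3, 5, 4, 3]), (false, [0], [1, 3, 4, 5, 4, 0, 3, 4]), (false, [5], [4, 3,
    5, 4, 3]), (false, [5], [3, 4, 3, 5, 4, 3]), (false, [0, 5], [3, 4, 3, 5, 4, 3]), (false, [2,
    5], [3, 4, 3, 5, 4, 3]), (false, [5, 5], [3, 4, 3, 5, 4, 3])]), (606, [(false, [], [2, 3, 5,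
    4, 3]), (false, [], [4, 3, 5, 4, 3]), (false, [], [1, 5, 1, 4, 3, 5, 4]), (false, [0], [1, 3,
    4, 5, 4, 0, 3, 4]), (false, [1], [3, 4, 3, 5, 4, 3]), (false, [5], [4, 3, 5, 4, 3]), (false,
    [5], [3, 4, 3, 5, 4, 3]), (false, [5], [1, 3, 4, 5, 4, 0, 3, 4]), (true, [], [4, 3, 5, 4, 3]),
    (true, [], [1, 5, 1, 4, 3, 5, 4]), (true, [0], [3, 4, 3, 5, 4, 3])]), (847, [(false, [], [2,
    3, 5, 4, 3]), (false, [0], [4, 3, 5, 4, 3]), (false, [0], [1, 3, 4, 5, 4, 0, 3, 4]), (false,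
    [5], [4, 3, 5, 4, 3]), (false, [5], [1, 3, 4, 5, 4, 0, 3, 4]), (false, [0, 5], [3, 4, 3, 5, 4,
    3]), (false, [2, 5], [3, 4, 3, 5, 4, 3]), (false, [5, 5], [3, 4, 3, 5, 4, 3]), (true, [], [2,
    3, 5, 4, 3]), (true, [], [3, 4, 3, 5, 4, 3])]), (1340, [(false, [], [2, 3, 5, 4, 3]), (false,
    [], [1, 3, 4, 5, 4, 0, 3, 4]), (false, [0], [3, 4, 3, 5, 4, 3]), (false, [5], [4, 3, 5, 4,
    3]), (false, [5], [3, 4, 3, 5, 4, 3]), (false, [5], [1, 3, 4, 5, 4, 0, 3, 4]), (true, [], [4,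
    3, 5, 4, 3]), (true, [], [3, 4, 3, 5, 4, 3]), (true, [], [1, 3, 4, 5, 4, 0, 3, 4])]), (600,
    [(false, [], [2, 3, 5, 4, 3]), (false, [], [3, 4, 3, 5, 4, 3]), (false, [0], [4, 3, 5, 4, 3]),
    (false, [0], [3, 4, 3, 5, 4, 3]), (false, [0], [1, 3, 4, 5, 4, 0, 3, 4]), (false, [1], [3, 4,
    3, 5, 4, 3]), (false, [5], [4, 3, 5, 4, 3]), (false, [5], [3, 4, 3, 5, 4, 3]), (false, [5],
    [1, 3, 4, 5, 4, 0, 3, 4]), (false, [5, 5], [3, 4, 3, 5, 4, 3]), (true, [], [1, 5, 1, 4, 3, 5,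
    4]), (true, [], [1, 3, 4, 5, 4, 0, 3, 4])]), (1087, [(false, [], [2, 3, 5, 4, 3]), (false, [],
    [3, 4, 3, 5, 4, 3]), (false, [], [1, 3, 4, 5, 4, 0, 3, 4]), (false, [0], [3, 4, 3, 5, 4, 3]),
    (false, [0], [1, 3, 4, 5, 4, 0, 3, 4]), (false, [5], [4, 3, 5, 4, 3]), (false, [5], [3, 4, 3,
    5, 4, 3]), (false, [0, 5], [3, 4, 3, 5, 4, 3]), (false, [2, 5], [3, 4, 3, 5, 4, 3]), (false,
    [5, 5], [3, 4, 3, 5, 4, 3]), (true, [], [4, 3, 5, 4, 3]), (true, [], [3, 4, 3, 5, 4, 3]),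
    (true, [], [1, 3, 4, 5, 4, 0, 3, 4])]), (602, [(false, [0], [1, 3, 4, 5, 4, 0, 3, 4]), (false,
    [1], [3, 4, 3, 5, 4, 3]), (false, [5], [3, 4, 3, 5, 4, 3]), (true, [], [1, 3, 4, 5, 4, 0, 3,
    4]), (true, [0], [3, 4, 3, 5, 4, 3])]), (1337, [(false, [], [2, 3, 5, 4, 3]), (false, [], [4,
    3, 5, 4, 3]), (false, [0], [3, 4, 3, 5, 4, 3]), (false, [0], [1, 3, 4, 5, 4, 0, 3, 4]),
    (false, [5], [1, 3, 4, 5, 4, 0, 3, 4]), (false, [2, 5], [3, 4, 3, 5, 4, 3]), (false, [5, 5],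
    [3, 4, 3, 5, 4, 3]), (true, [], [3, 4, 3, 5, 4, 3]), (true, [0], [3, 4, 3, 5, 4, 3])]), (2145,
    [(false, [], [2, 3, 5, 4, 3]), (false, [], [4, 3, 5, 4, 3]), (false, [], [1, 5, 1, 4, 3, 5,
    4]), (false, [], [3, 4, 3, 5, 4, 3]), (false, [0], [4, 3, 5, 4, 3]), (false, [1], [3, 4, 3, 5,
    4, 3]), (false, [5], [4, 3, 5, 4, 3]), (false, [5], [3, 4, 3, 5, 4, 3]), (false, [0, 5], [3,
    4, 3, 5, 4, 3]), (false, [2, 5], [3, 4, 3, 5, 4, 3]), (false, [5, 5], [3, 4, 3, 5, 4, 3])]),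
    (436, [(false, [], [2, 3, 5, 4, 3]), (false, [], [3, 4, 3, 5, 4, 3]), (false, [0], [4, 3, 5,
    4, 3]), (false, [1], [3, 4, 3, 5, 4, 3]), (false, [0, 5], [3, 4, 3, 5, 4, 3]), (false, [2, 5],
    [3, 4, 3, 5, 4, 3]), (false, [5, 5], [3, 4, 3, 5, 4, 3]), (true, [], [4, 3, 5, 4, 3]), (true,
    [], [3, 4, 3, 5, 4, 3]), (true, [], [1, 3, 4, 5, 4, 0, 3, 4]), (true, [0], [3, 4, 3, 5, 4,
    3])]), (542, [(false, [0], [4, 3, 5, 4, 3]), (false, [5], [4, 3, 5, 4, 3])]), (1564, [(false,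
    [], [4, 3, 5, 4, 3]), (false, [], [1, 5, 1, 4, 3, 5, 4]), (false, [], [1, 3, 4, 5, 4, 0, 3,
    4]), (false, [0], [4, 3, 5, 4, 3]), (false, [0], [1, 3, 4, 5, 4, 0, 3, 4]), (false, [5], [4,
    3, 5, 4, 3]), (false, [5], [3, 4, 3, 5, 4, 3]), (false, [0, 5], [3, 4, 3, 5, 4, 3])]), (292,
    [(false, [], [4, 3, 5, 4, 3]), (false, [], [1, 5, 1, 4, 3, 5, 4]), (false, [], [3, 4, 3, 5, 4,
    3]), (false, [0], [4, 3, 5, 4, 3]), (false, [0], [1, 3, 4, 5, 4, 0, 3, 4]), (false, [5], [3,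
    4, 3, 5, 4, 3]), (false, [0, 5], [3, 4, 3, 5, 4, 3]), (false, [2, 5], [3, 4, 3, 5, 4, 3]),
    (false, [5, 5], [3, 4, 3, 5, 4, 3])]), (1218, [(false, [], [4, 3, 5, 4, 3]), (false, [0], [3,
    4, 3, 5, 4, 3]), (false, [5], [4, 3, 5, 4, 3]), (false, [5], [3, 4, 3, 5, 4, 3]), (false, [0,
    5], [3, 4, 3, 5, 4, 3]), (false, [5, 5], [3, 4, 3, 5, 4, 3]), (true, [], [2, 3, 5, 4, 3]),
    (true, [], [3, 4, 3, 5, 4, 3]), (true, [], [1, 3, 4, 5, 4, 0, 3, 4])]), (314, [(false, [], [2,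
    3, 5, 4, 3]), (false, [], [3, 4, 3, 5, 4, 3]), (false, [0], [3, 4, 3, 5, 4, 3]), (false, [5],
    [4, 3, 5, 4, 3]), (false, [5], [1, 3, 4, 5, 4, 0, 3, 4]), (false, [0, 5], [3, 4, 3, 5, 4, 3]),
    (false, [2, 5], [3, 4, 3, 5, 4, 3]), (false, [5, 5], [3, 4, 3, 5, 4, 3])]), (889, [(false, [],
    [2, 3, 5, 4, 3]), (false, [], [4, 3, 5, 4, 3]), (false, [], [1, 5, 1, 4, 3, 5, 4]), (false,
    [], [1, 3, 4, 5, 4, 0, 3, 4]), (false, [0], [4, 3, 5, 4, 3]), (false, [1], [3, 4, 3, 5, 4,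
    3]), (false, [5], [3, 4, 3, 5, 4, 3]), (false, [5], [1, 3, 4, 5, 4, 0, 3, 4]), (false, [5, 5],
    [3, 4, 3, 5, 4, 3]), (true, [], [2, 3, 5, 4, 3]), (true, [], [1, 5, 1, 4, 3, 5, 4])])]

/-- the word of a preimage of the Hecke vector under the norm, type 100 -/
def pw100 : List ℕ := [3, 5, 4, 3]

/-- pencils proving it -/
def pl100 : List (ℕ × List ℕ) :=
    [(0, [3, 5, 4, 3]), (0, [0, 2, 3, 5, 4, 3]), (2, []), (0, [3, 5]), (1, [3, 5]), (2, [0, 3,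
    5]), (1, [0, 2, 3, 5])]

/-- the word of a preimage of the Hecke vector under the norm, type 010 -/
def pw010 : List ℕ := [2, 3, 4, 3, 5, 4, 3]

/-- pencils proving it -/
def pl010 : List (ℕ × List ℕ) :=
    [(2, [2, 3, 5, 4, 3]), (2, [2, 3, 5, 1, 4, 3]), (0, [2, 3, 5, 4]), (1, [2, 3, 5, 4]), (0, [2,
    3, 5, 1, 4]), (1, [2, 3, 4, 3, 5, 4, 3]), (1, [4, 2, 5, 4, 0, 3, 4, 5]), (0, [3, 4, 5, 4, 0,
    3, 4]), (2, [3, 4, 5, 4, 0, 3, 4]), (2, [2, 3, 5, 1, 4, 3, 5, 4]), (0, [0, 1, 3, 4, 3, 5, 4,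
    3]), (2, [3]), (0, []), (2, [3, 5])]

/-- the word of a preimage of the Hecke vector under the norm, type 001 -/
def pw001 : List ℕ := [3, 4, 5, 4]

/-- pencils proving it -/
def pl001 : List (ℕ × List ℕ) :=
    [(2, [3, 5, 4]), (2, [0, 2, 3, 5, 4]), (0, [3]), (2, [0, 3]), (0, []), (0, [3, 5]), (1, [3,
    5]), (1, [0, 2, 3, 5])]

/-- the word of a preimage of the Hecke vector under the norm, type 110 -/
def pw110 : List ℕ := [4, 3]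

/-- pencils proving it -/
def pl110 : List (ℕ × List ℕ) :=
    [(0, [4, 3]), (0, [1, 4, 3]), (1, [4])]

/-- the word of a preimage of the Hecke vector under the norm, type 011 -/
def pw011 : List ℕ := [4, 5]

/-- pencils proving it -/
def pl011 : List (ℕ × List ℕ) :=
    [(1, [4]), (2, [4]), (2, [1, 4])]

/-- the mask of all flags -/
def Kf : ℕ := 49908704365581145388605441971040867241632166970546831963097284659538546778048115299487118659523660565455361675306851771916488185044709447077179008024139732956901306857479044908910027461723172069245376442494168185856851642567343807282034080635574264226505193574018551021069653517892021816514114982358659895568938824911373555004227985226836292765744729038251304659129803203027045791929821820619382351517211598379352454229382064266573307644724614344025902266096352292378907421243381840619547355210047982246441474358601461824932134128799862015370943855110154453917282338066242884898329438480576422876850565618849981686036624220895763321897042816055075858414514981056710398900109367631160531535751413284111266310926959236580153954526841208094594395357291869367072483341300471906032804845091944475743638894012150570788349022228527281858933738738100312735860620603344722130948088343696105433397108374098657805147458961817098979520520424259584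

/-! ### masks -/

section masks

variable {X : Type*} [AddCommGroup X] [Module RG X]

theorem wG_append (l l' : List ℕ) : wG (l ++ l') = wG l * wG l' := by
  induction l with
  | nil => simp [wG]
  | cons a l ih => rw [List.cons_append, wG, wG, ih, mul_assoc]

/-- the regular unipotent element -/
def h0w : List ℕ := [2, 1, 0]
/-- the longest element -/
def w0w : List ℕ := [3, 4, 3, 5, 4, 2, 3, 1, 0]
/-- the regular unipotent element -/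
def h0 : Gam := wG h0w
/-- the longest element -/
def w0 : Gam := wG w0w

theorem h0_order : orderOf h0 = 4 := by
  refine orderOf_eq_prime_pow (p := 2) (n := 1) ?_ ?_
  · intro hc
    exact absurd (congrArg Units.val hc) (by decide +kernel)
  · apply Units.ext
    decide +kernel

/-- the mask of a norm -/
def nrmM (c g : List ℕ) : ℕ :=
  ((2 ^ fc (wM (c ++ g)) ^^^ 2 ^ fc (wM (c ++ (h0w ++ g)))) ^^^
    2 ^ fc (wM (c ++ (h0w ++ (h0w ++ g))))) ^^^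
    2 ^ fc (wM (c ++ (h0w ++ (h0w ++ (h0w ++ g)))))

theorem SS_nrm {w : X} (hw : ∀ i, act (xr i) w = w) (c g : List ℕ) :
    SS w (nrmM c g) = act (wG c) (nrm4 h0 (act (wG g) w)) := by
  unfold nrmM
  rw [SS_xor, SS_xor, SS_xor]
  simp only [← enc_w]
  rw [SS_one hw, SS_one hw, SS_one hw, SS_one hw]
  simp only [wG_append, nrm4, act_add, ← act_mul]
  have e : wG h0w = h0 := rfl
  rw [e]
  have e2 : h0 ^ 2 = h0 * h0 := pow_two h0
  have e3 : h0 ^ 3 = h0 * (h0 * h0) := by rw [pow_succ', pow_two]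
  rw [e2, e3]
  simp only [mul_assoc]

theorem SS_pen' {J : Fin 3 → Bool} {w : X} (hw : HV J w) {J' : ℕ → Bool}
    (hJ : ∀ i : Fin 3, J i = J' i) (i : ℕ) (hi : i < 3) (g : List ℕ) :
    SS w (penM (J' i) i (wM g)) = 0 := by
  rw [← enc_w]
  have h := SS_pen hw ⟨i, hi⟩ (wG g)
  rwa [hJ] at h

/-- reduction modulo pencils -/
def redu (J : ℕ → Bool) : List (ℕ × ℕ × List ℕ) → ℕ → ℕ
  | [], m => m
  | (p, i, g) :: L, m =>
    redu J L (if i < 3 ∧ m.testBit p = true then m ^^^ penM (J i) i (wM g) else m)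

theorem SS_redu {J : Fin 3 → Bool} {w : X} (hw : HV J w) {J' : ℕ → Bool}
    (hJ : ∀ i : Fin 3, J i = J' i) (L : List (ℕ × ℕ × List ℕ)) :
    ∀ m, SS w (redu J' L m) = SS w m := by
  induction L with
  | nil => intro m; rfl
  | cons t L ih =>
    obtain ⟨p, i, g⟩ := t
    intro m
    rw [redu, ih]
    split_ifs with h
    · rw [SS_xor, SS_pen' hw hJ i h.1 g, add_zero]
    · rfl

/-- mask of a list of pencils -/
def penL (J : ℕ → Bool) : List (ℕ × List ℕ) → ℕ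
  | [] => 0
  | (i, g) :: L => (if i < 3 then penM (J i) i (wM g) else 0) ^^^ penL J L

theorem SS_penL {J : Fin 3 → Bool} {w : X} (hw : HV J w) {J' : ℕ → Bool}
    (hJ : ∀ i : Fin 3, J i = J' i) (L : List (ℕ × List ℕ)) : SS w (penL J' L) = 0 := by
  induction L with
  | nil => exact SS_zero w
  | cons t L ih =>
    obtain ⟨i, g⟩ := t
    rw [penL, SS_xor, ih, add_zero]
    split_ifs with h
    · exact SS_pen' hw hJ i h g
    · exact SS_zero w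

/-- the Hecke vector is a norm -/
theorem norm_of_cert {J : Fin 3 → Bool} {w : X} (hw : HV J w) {J' : ℕ → Bool}
    (hJ : ∀ i : Fin 3, J i = J' i) (g : List ℕ) (L : List (ℕ × List ℕ))
    (h : nrmM [] g ^^^ penL J' L = 2 ^ fc ⟨1, 2, 4, 8⟩) : ∃ x, nrm4 h0 x = w := by
  refine ⟨act (wG g) w, ?_⟩
  have h1 := congrArg (SS w) h
  rw [SS_xor, SS_penL hw hJ, add_zero, SS_nrm hw.fix, ← enc_one, SS_one hw.fix, act_one] at h1
  rw [wG, act_one] at h1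
  exact h1

theorem SS_two_pow (w : X) (n : ℕ) : SS w (2 ^ n) = FF w n := by
  unfold SS
  simp only [Nat.testBit_two_pow]
  by_cases hn : n < 4096
  · rw [Finset.sum_eq_single n]
    · simp
    · intro b _ hb
      rw [if_neg]
      simpa using hb.symm
    · intro h
      exact absurd (Finset.mem_range.2 hn) h
  · have hF : FF w n = 0 := by
      rw [FF, dif_neg]
      rintro ⟨g, hg⟩
      have := fc_lt g
      omega
    rw [hF]
    apply Finset.sum_eq_zero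
    intro b hb
    rw [Finset.mem_range] at hb
    rw [if_neg]
    simp only [decide_eq_true_eq]
    omega

theorem SS_mem (w : X) (A : AddSubgroup X) (m : ℕ) (h : ∀ n, m.testBit n = true → FF w n ∈ A) :
    SS w m ∈ A := by
  unfold SS
  apply AddSubgroup.sum_mem
  intro i _
  split_ifs with hi
  · exact h i hi
  · exact A.zero_mem

/-- unit propagation -/
def prop (J : ℕ → Bool) : List (ℕ × ℕ × List ℕ) → ℕ → ℕ
  | [], K => K
  | (p, i, g) :: L, K =>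
    prop J L (if i < 3 ∧ (penM (J i) i (wM g)) ||| (K ||| 2 ^ p) = K ||| 2 ^ p ∧
      (penM (J i) i (wM g)).testBit p = true then K ||| 2 ^ p else K)

theorem prop_mem {J : Fin 3 → Bool} {w : X} (hw : HV J w) {J' : ℕ → Bool}
    (hJ : ∀ i : Fin 3, J i = J' i) (A : AddSubgroup X) (L : List (ℕ × ℕ × List ℕ)) :
    ∀ K, (∀ n, K.testBit n = true → FF w n ∈ A) →
      ∀ n, (prop J' L K).testBit n = true → FF w n ∈ A := by
  induction L with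
  | nil => intro K hK; exact hK
  | cons t L ih =>
    obtain ⟨p, i, g⟩ := t
    intro K hK
    rw [prop]
    apply ih
    split_ifs with h
    · obtain ⟨h1, h2, h3⟩ := h
      have hp : FF w p ∈ A := by
        have e := SS_pen' hw hJ i h1 g
        set m := penM (J' i) i (wM g) with hm
        have h4 : SS w (m ^^^ 2 ^ p) ∈ A := by
          apply SS_mem
          intro n hn
          rw [Nat.testBit_xor, Nat.testBit_two_pow] at hn
          by_cases hnp : p = n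
          · subst hnp
            rw [h3] at hn
            simp at hn
          · have hmn : m.testBit n = true := by simpa [hnp] using hn
            have h5 := congrArg (fun k => k.testBit n) h2
            simp only [Nat.testBit_or, Nat.testBit_two_pow, hmn, hnp, decide_false,
              Bool.or_false, Bool.true_or] at h5
            exact hK n h5.symm
        rw [SS_xor, e, zero_add, SS_two_pow] at h4
        exact h4
      intro n hn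
      rw [Nat.testBit_or, Nat.testBit_two_pow] at hn
      by_cases hnp : p = n
      · subst hnp; exact hp
      · apply hK
        simpa [hnp] using hn
    · exact hK

/-- the word of the conjugating element -/
def cword (r : Bool × List ℕ × List ℕ) : List ℕ := if r.1 then w0w ++ r.2.1 else r.2.1

/-- the letters allowed -/
def okr (i : ℕ) (r : Bool × List ℕ × List ℕ) : Bool :=
  r.2.1.all (fun k => decide (k < 3) || (!r.1 && decide (k = 3 + i)))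

/-- masks of sums of norms -/
def nrsM : List (Bool × List ℕ × List ℕ) → ℕ
  | [] => 0
  | r :: L => nrmM (cword r) r.2.2 ^^^ nrsM L

/-- check of a norm certificate -/
def certOk (J : ℕ → Bool) (i : ℕ) (L : List (ℕ × ℕ × List ℕ))
    (t : ℕ × List (Bool × List ℕ × List ℕ)) : Bool :=
  t.2.all (okr i) && decide (redu J L (2 ^ t.1 ^^^ nrsM t.2) = 0)

theorem nrs_mem {J : Fin 3 → Bool} {w : X} (hw : HV J w) (A : AddSubgroup X) (i : ℕ)
    (hA : ∀ r : Bool × List ℕ × List ℕ, okr i r = true →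
      ∀ x : X, act (wG (cword r)) (nrm4 h0 x) ∈ A)
    (L : List (Bool × List ℕ × List ℕ)) (hL : L.all (okr i) = true) : SS w (nrsM L) ∈ A := by
  induction L with
  | nil => rw [nrsM, SS_zero]; exact A.zero_mem
  | cons r L ih =>
    rw [List.all_cons, Bool.and_eq_true] at hL
    rw [nrsM, SS_xor, SS_nrm hw.fix]
    exact A.add_mem (hA r hL.1 _) (ih hL.2)

theorem cert_mem {J : Fin 3 → Bool} {w : X} (hw : HV J w) {J' : ℕ → Bool}
    (hJ : ∀ i : Fin 3, J i = J' i) (A : AddSubgroup X) (i : ℕ)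
    (hA : ∀ r : Bool × List ℕ × List ℕ, okr i r = true →
      ∀ x : X, act (wG (cword r)) (nrm4 h0 x) ∈ A)
    (ord : List (ℕ × ℕ × List ℕ)) (t : ℕ × List (Bool × List ℕ × List ℕ))
    (ht : certOk J' i ord t = true) : FF w t.1 ∈ A := by
  rw [certOk, Bool.and_eq_true, decide_eq_true_iff] at ht
  have h1 := SS_redu hw hJ ord (2 ^ t.1 ^^^ nrsM t.2)
  rw [ht.2, SS_zero, SS_xor, SS_two_pow] at h1
  have h2 : FF w t.1 = SS w (nrsM t.2) := by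
    have := eq_neg_of_add_eq_zero_left h1.symm
    rw [this, neg_eq]
  rw [h2]
  exact nrs_mem hw A i hA t.2 ht.1

/-- the mask of the certified flags -/
def knw (C : List (ℕ × List (Bool × List ℕ × List ℕ))) : ℕ := C.foldr (fun t K => 2 ^ t.1 ||| K) 0

theorem knw_bit (C : List (ℕ × List (Bool × List ℕ × List ℕ))) (n : ℕ)
    (h : (knw C).testBit n = true) : ∃ t ∈ C, t.1 = n := by
  induction C with
  | nil => simp [knw] at h
  | cons t C ih =>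
    have e : knw (t :: C) = 2 ^ t.1 ||| knw C := rfl
    rw [e, Nat.testBit_or, Nat.testBit_two_pow, Bool.or_eq_true] at h
    rcases h with h | h
    · exact ⟨t, List.mem_cons_self, by simpa using h⟩
    · obtain ⟨s, hs, e⟩ := ih h
      exact ⟨s, List.mem_cons_of_mem _ hs, e⟩

/-- three independent vectors -/
def ind3 (a b c : ℕ) : Bool :=
  a != 0 && b != 0 && b != a && c != 0 && c != a && c != b && c != a ^^^ b

theorem enc_ind (g : Gam) : ind3 (enc g).a (enc g).b (enc g).c = true := by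
  have hz : ec 0 = 0 := by decide
  have inj : ∀ x : V4, g.1 *ᵥ x = 0 → x = 0 := by
    intro x hx
    apply mulVec_inj g
    rw [hx, Matrix.mulVec_zero]
  have ne : ∀ x0 x1 x2 : ZMod 2, (x0 ≠ 0 ∨ x1 ≠ 0 ∨ x2 ≠ 0) →
      x0 • col g 0 + x1 • col g 1 + x2 • col g 2 ≠ 0 := by
    intro x0 x1 x2 h hc
    have h1 : g.1 *ᵥ ![x0, x1, x2, 0] = 0 := by
      rw [mulVec_eq]
      simpa using hc
    have h2 := inj _ h1
    have a0 := congrFun h2 0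
    have a1 := congrFun h2 1
    have a2 := congrFun h2 2
    simp at a0 a1 a2
    rcases h with h | h | h
    · exact h a0
    · exact h a1
    · exact h a2
  have vadd : ∀ v : V4, v + v = 0 := by
    intro v
    funext i
    exact zadd _
  have e0 : (enc g).a = ec (col g 0) := rfl
  have e1 : (enc g).b = ec (col g 1) := rfl
  have e2 : (enc g).c = ec (col g 2) := rfl
  rw [e0, e1, e2]
  simp only [ind3, Bool.and_eq_true, bne_iff_ne, ne_eq]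
  have n1 := ne 1 0 0 (Or.inl one_ne_zero)
  have n2 := ne 0 1 0 (Or.inr (Or.inl one_ne_zero))
  have n3 := ne 1 1 0 (Or.inl one_ne_zero)
  have n4 := ne 0 0 1 (Or.inr (Or.inr one_ne_zero))
  have n5 := ne 1 0 1 (Or.inl one_ne_zero)
  have n6 := ne 0 1 1 (Or.inr (Or.inr one_ne_zero))
  have n7 := ne 1 1 1 (Or.inl one_ne_zero)
  simp only [one_smul, zero_smul, add_zero, zero_add] at n1 n2 n3 n4 n5 n6 n7
  refine ⟨⟨⟨⟨⟨⟨?_, ?_⟩, ?_⟩, ?_⟩, ?_⟩, ?_⟩, ?_⟩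
  · intro h; rw [← hz] at h; exact n1 (ec_inj _ _ h)
  · intro h; rw [← hz] at h; exact n2 (ec_inj _ _ h)
  · intro h; apply n3; rw [ec_inj _ _ h]; exact vadd _
  · intro h; rw [← hz] at h; exact n4 (ec_inj _ _ h)
  · intro h; apply n5; rw [ec_inj _ _ h]; exact vadd _
  · intro h; apply n6; rw [ec_inj _ _ h]; exact vadd _
  · intro h; rw [← ec_add] at h; apply n7; rw [ec_inj _ _ h]; exact vadd _

theorem Kf_cover : ∀ a < 16, ∀ b < 16, ∀ c < 16, ind3 a b c = true →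
    Kf.testBit (fc ⟨a, b, c, 0⟩) = true := by
  decide +kernel

theorem engine {J : Fin 3 → Bool} {w : X} (hw : HV J w) {J' : ℕ → Bool}
    (hJ : ∀ i : Fin 3, J i = J' i) (A : AddSubgroup X) (i : ℕ)
    (hA : ∀ r : Bool × List ℕ × List ℕ, okr i r = true →
      ∀ x : X, act (wG (cword r)) (nrm4 h0 x) ∈ A)
    (ord : List (ℕ × ℕ × List ℕ)) (C : List (ℕ × List (Bool × List ℕ × List ℕ)))
    (hC : C.all (certOk J' i ord) = true) (hK : prop J' ord.reverse (knw C) = Kf) (g : Gam) :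
    act g w ∈ A := by
  have h1 : ∀ n, (knw C).testBit n = true → FF w n ∈ A := by
    intro n hn
    obtain ⟨t, ht, rfl⟩ := knw_bit C n hn
    exact cert_mem hw hJ A i hA ord t (List.all_eq_true.1 hC t ht)
  have h2 := prop_mem hw hJ A ord.reverse (knw C) h1 (fc (enc g))
  rw [hK] at h2
  have h3 : fc (enc g) = fc ⟨(enc g).a, (enc g).b, (enc g).c, 0⟩ := rfl
  rw [← FF_eq hw.fix]
  apply h2
  rw [h3]
  exact Kf_cover _ (ec_lt _) _ (ec_lt _) _ (ec_lt _) (enc_ind g)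

end masks

/-! ### checks -/

/-- the two types -/
def J110 : ℕ → Bool := fun i => decide (i < 2)
/-- the two types -/
def J011 : ℕ → Bool := fun i => decide (1 ≤ i)

theorem chk110_0 : cert110_0.all (certOk J110 0 ord110) = true := by decide +kernel
theorem chk110_2 : cert110_2.all (certOk J110 2 ord110) = true := by decide +kernel
theorem chk011_0 : cert011_0.all (certOk J011 0 ord011) = true := by decide +kernel
theorem chk011_2 : cert011_2.all (certOk J011 2 ord011) = true := by decide +kernel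

theorem prp110_0 : prop J110 ord110.reverse (knw cert110_0) = Kf := by decide +kernel
theorem prp110_2 : prop J110 ord110.reverse (knw cert110_2) = Kf := by decide +kernel
theorem prp011_0 : prop J011 ord011.reverse (knw cert011_0) = Kf := by decide +kernel
theorem prp011_2 : prop J011 ord011.reverse (knw cert011_2) = Kf := by decide +kernel

theorem nrmc100 : nrmM [] pw100 ^^^ penL (fun i => decide (i = 0)) pl100 = 2 ^ fc ⟨1, 2, 4, 8⟩ := by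
  decide +kernel
theorem nrmc010 : nrmM [] pw010 ^^^ penL (fun i => decide (i = 1)) pl010 = 2 ^ fc ⟨1, 2, 4, 8⟩ := by
  decide +kernel
theorem nrmc001 : nrmM [] pw001 ^^^ penL (fun i => decide (i = 2)) pl001 = 2 ^ fc ⟨1, 2, 4, 8⟩ := by
  decide +kernel
theorem nrmc110 : nrmM [] pw110 ^^^ penL J110 pl110 = 2 ^ fc ⟨1, 2, 4, 8⟩ := by
  decide +kernel
theorem nrmc011 : nrmM [] pw011 ^^^ penL J011 pl011 = 2 ^ fc ⟨1, 2, 4, 8⟩ := by
  decide +kernel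

/-! ### translates of the opposite vector by the unitriangular group -/

section opp

/-- opposite index -/
def rv : Fin 3 → Fin 3 := ![2, 1, 0]

theorem w0_g3 : ∀ j : Fin 3, w0 * g3 (rv j) = g3 j ^ 2 * w0 := by
  intro j
  fin_cases j <;> apply Units.ext <;> decide +kernel

theorem w0_g3' : ∀ j : Fin 3, w0 * g3 (rv j) ^ 2 = g3 j * w0 := by
  intro j
  fin_cases j <;> apply Units.ext <;> decide +kernel

theorem xr_w0 : ∀ j : Fin 3, g3 j * w0 * xr (rv j) = xr j * w0 := by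
  intro j
  fin_cases j <;> apply Units.ext <;> decide +kernel

/-- `g3 j ^ k * xr m = b * g3 j ^ k'` -/
def tb : Fin 3 → Fin 3 → Fin 3 → List (Fin 3) × Fin 3 :=
  ![![![([0], 0), ([1], 0), ([2], 0)], ![([0], 2), ([0, 1, 0], 1), ([2], 1)],
      ![([0], 1), ([0, 1, 0, 1], 2), ([2], 2)]],
    ![![([0], 0), ([1], 0), ([2], 0)], ![([1, 0, 1], 1), ([1], 2), ([1, 2, 1], 1)],
      ![([0, 1, 0, 1], 2), ([1], 1), ([1, 2, 1, 2], 2)]],
    ![![([0], 0), ([1], 0), ([2], 0)], ![([0], 1), ([2, 1, 2], 1), ([2], 2)],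
      ![([0], 2), ([1, 2, 1, 2], 2), ([2], 1)]]]

theorem tb_val : ∀ j k m : Fin 3, (g3 j ^ (k : ℕ) * xr m).1 =
    (((tb j k m).1.map xr).prod * g3 j ^ ((tb j k m).2 : ℕ)).1 := by
  decide +kernel

theorem tb_eq (j k m : Fin 3) : g3 j ^ (k : ℕ) * xr m =
    ((tb j k m).1.map xr).prod * g3 j ^ ((tb j k m).2 : ℕ) := Units.ext (tb_val j k m)

theorem comm_word (j : Fin 3) (l : List (Fin 3)) : ∀ k : Fin 3, ∃ (l' : List (Fin 3)) (k' : Fin 3),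
    g3 j ^ (k : ℕ) * (l.map xr).prod = (l'.map xr).prod * g3 j ^ (k' : ℕ) := by
  induction l with
  | nil => intro k; exact ⟨[], k, by simp⟩
  | cons m l ih =>
    intro k
    obtain ⟨l', k', h⟩ := ih (tb j k m).2
    refine ⟨(tb j k m).1 ++ l', k', ?_⟩
    rw [List.map_cons, List.prod_cons, ← mul_assoc, tb_eq, mul_assoc, h, List.map_append,
      List.prod_append, mul_assoc]

variable {Z : Type*} [AddCommGroup Z] [Module RG Z]

theorem dclos {J : Fin 3 → Bool} {z : Z} (hz : HV J z) (W : AddSubgroup Z) (h0 : act w0 z ∈ W)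
    (hx : ∀ i, ∀ ζ ∈ W, act (xr i) ζ ∈ W) (g : Gam) : act g z ∈ W := by
  set V : AddSubgroup Z := AddSubgroup.closure
    {ζ | ∃ l : List (Fin 3), ζ = act ((l.map xr).prod * w0) z} with hV
  have hVW : V ≤ W := by
    rw [hV, AddSubgroup.closure_le]
    rintro _ ⟨l, rfl⟩
    induction l with
    | nil => simpa using h0
    | cons i l ih =>
      rw [List.map_cons, List.prod_cons, mul_assoc, act_mul]
      exact hx i _ ih
  have c1 : ∀ i, ∀ ζ ∈ V, act (xr i) ζ ∈ V := by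
    intro i ζ hζ
    induction hζ using AddSubgroup.closure_induction with
    | mem x hx =>
      obtain ⟨l, rfl⟩ := hx
      apply AddSubgroup.subset_closure
      refine ⟨i :: l, ?_⟩
      rw [← act_mul, List.map_cons, List.prod_cons, mul_assoc]
    | zero => rw [act_zero]; exact V.zero_mem
    | add a b _ _ ha hb => rw [act_add]; exact V.add_mem ha hb
    | neg a _ ha => rw [act_neg]; exact V.neg_mem ha
  have c1' : ∀ l : List (Fin 3), ∀ ζ ∈ V, act (l.map xr).prod ζ ∈ V := by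
    intro l
    induction l with
    | nil => intro ζ hζ; simpa using hζ
    | cons i l ih =>
      intro ζ hζ
      rw [List.map_cons, List.prod_cons, act_mul]
      exact c1 i _ (ih ζ hζ)
  have hw0 : act w0 z ∈ V := AddSubgroup.subset_closure ⟨[], by simp⟩
  have k1 : ∀ j, act (g3 j * w0) z ∈ V := by
    intro j
    have e : act (g3 j * w0) z = act (xr j * w0) z := by
      rw [← xr_w0 j, act_mul _ (xr (rv j)), hz.fix]
    rw [e, act_mul]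
    exact c1 j _ hw0
  have k2 : ∀ j, act (g3 j ^ 2 * w0) z ∈ V := by
    intro j
    rw [← w0_g3 j]
    by_cases hJ : J (rv j) = true
    · have h := congrArg (act w0) (hz.eig0 (rv j) hJ)
      rw [act_add, act_add, act_zero, ← act_mul, ← act_mul, w0_g3' j] at h
      have e : act (w0 * g3 (rv j)) z = -(act w0 z + act (g3 j * w0) z) := by
        rw [eq_neg_iff_add_eq_zero, ← h]
        abel
      rw [e]
      exact V.neg_mem (V.add_mem hw0 (k1 j))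
    · have h := hz.eig1 (rv j) (by simpa using hJ)
      rw [act_mul, h]
      exact hw0
  have kk : ∀ j (k : Fin 3), act (g3 j ^ (k : ℕ) * w0) z ∈ V := by
    intro j k
    fin_cases k
    · simpa using hw0
    · simpa using k1 j
    · exact k2 j
  have c2 : ∀ j, ∀ ζ ∈ V, act (g3 j) ζ ∈ V := by
    intro j ζ hζ
    induction hζ using AddSubgroup.closure_induction with
    | mem x hx =>
      obtain ⟨l, rfl⟩ := hx
      obtain ⟨l', k', h⟩ := comm_word j l 1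
      have h' : g3 j * (l.map xr).prod = (l'.map xr).prod * g3 j ^ (k' : ℕ) := by
        simpa using h
      rw [← act_mul, ← mul_assoc, h', mul_assoc, act_mul]
      exact c1' l' _ (kk j k')
    | zero => rw [act_zero]; exact V.zero_mem
    | add a b _ _ ha hb => rw [act_add]; exact V.add_mem ha hb
    | neg a _ ha => rw [act_neg]; exact V.neg_mem ha
  have c3 : ∀ k : Fin 6, ∀ ζ ∈ V, act (M06.gen k) ζ ∈ V := by
    intro k
    fin_cases k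
    · exact c1 0
    · exact c1 1
    · exact c1 2
    · exact c2 0
    · exact c2 1
    · exact c2 2
  have c4 : ∀ g : Gam, ∀ ζ ∈ V, act g ζ ∈ V := by
    intro g
    obtain ⟨l, rfl⟩ := M06.gen_surj g
    induction l with
    | nil => intro ζ hζ; rwa [M06.word_nil, act_one]
    | cons k l ih =>
      intro ζ hζ
      rw [M06.word_cons, act_mul]
      exact c3 k _ (ih ζ hζ)
  apply hVW
  have h := c4 (g * w0⁻¹) _ hw0
  rwa [← act_mul, inv_mul_cancel_right] at h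

end opp

/-! ### the types -/

theorem cases_J (J : Fin 3 → Bool) : J = ![false, false, false] ∨ J = ![true, false, true] ∨
    J = ![true, true, true] ∨ J = ![true, false, false] ∨ J = ![false, true, false] ∨
    J = ![false, false, true] ∨ J = ![true, true, false] ∨ J = ![false, true, true] := by
  revert J
  decide

/-- the properties of a Hecke vector which are used -/
theorem hecke_prop (h2 : S_HV000) (h3 : S_HV101) (h4 : S_HV111) {X : Type} [AddCommGroup X]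
    [Module RG X] (hX : Free15 X) {J : Fin 3 → Bool} {w : X} (hw : HV J w) :
    (∃ x, nrm4 h0 x = w) ∧ (J 0 = false ∨ J 2 = false) := by
  rcases cases_J J with rfl | rfl | rfl | rfl | rfl | rfl | rfl | rfl
  · exact absurd hw (h2 X hX w)
  · exact absurd hw (h3 X hX w)
  · exact absurd hw (h4 X hX w)
  · exact ⟨norm_of_cert hw (J' := fun i => decide (i = 0)) (by decide) pw100 pl100 nrmc100,
      Or.inr rfl⟩
  · exact ⟨norm_of_cert hw (J' := fun i => decide (i = 1)) (by decide) pw010 pl010 nrmc010,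
      Or.inr rfl⟩
  · exact ⟨norm_of_cert hw (J' := fun i => decide (i = 2)) (by decide) pw001 pl001 nrmc001,
      Or.inl rfl⟩
  · exact ⟨norm_of_cert hw (J' := J110) (by decide) pw110 pl110 nrmc110, Or.inr rfl⟩
  · exact ⟨norm_of_cert hw (J' := J011) (by decide) pw011 pl011 nrmc011, Or.inl rfl⟩

/-- translates of a Hecke vector of the two types: the additive subgroup criterion -/
theorem all_mem {X : Type} [AddCommGroup X] [Module RG X] {w : X}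
    (hw : HV ![true, true, false] w ∨ HV ![false, true, true] w) (A : AddSubgroup X) (i : ℕ)
    (hi : i = 0 ∨ i = 2)
    (hA : ∀ r : Bool × List ℕ × List ℕ, okr i r = true →
      ∀ x : X, act (wG (cword r)) (nrm4 h0 x) ∈ A) (g : Gam) : act g w ∈ A := by
  rcases hw with hw | hw <;> rcases hi with rfl | rfl
  · exact engine hw (J' := J110) (by decide) A 0 hA ord110 cert110_0 chk110_0 prp110_0 g
  · exact engine hw (J' := J110) (by decide) A 2 hA ord110 cert110_2 chk110_2 prp110_2 g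
  · exact engine hw (J' := J011) (by decide) A 0 hA ord011 cert011_0 chk011_0 prp011_0 g
  · exact engine hw (J' := J011) (by decide) A 2 hA ord011 cert011_2 chk011_2 prp011_2 g

/-- words fixing a vector -/
theorem word_fix {Y : Type*} [AddCommGroup Y] [Module RG Y] {J : Fin 3 → Bool} {y : Y}
    (hy : HV J y) (i : Fin 3) (hi : J i = false) (l : List ℕ)
    (hl : ∀ k ∈ l, k < 3 ∨ k = 3 + (i : ℕ)) : act (wG l) y = y := by
  induction l with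
  | nil => rw [wG, act_one]
  | cons k l ih =>
    rw [wG, act_mul, ih (fun k hk => hl k (List.mem_cons_of_mem _ hk))]
    rcases hl k List.mem_cons_self with h | h
    · have e : genG k = xr ⟨k, h⟩ := by
        interval_cases k <;> rfl
      rw [e]
      exact hy.fix _
    · subst h
      have e : genG (3 + (i : ℕ)) = g3 i := by
        fin_cases i <;> rfl
      rw [e]
      exact hy.eig1 i hi

theorem word_fixB {Y : Type*} [AddCommGroup Y] [Module RG Y] {J : Fin 3 → Bool} {y : Y}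
    (hy : HV J y) (l : List ℕ) (hl : ∀ k ∈ l, k < 3) : act (wG l) y = y := by
  induction l with
  | nil => rw [wG, act_one]
  | cons k l ih =>
    rw [wG, act_mul, ih (fun k hk => hl k (List.mem_cons_of_mem _ hk))]
    have h := hl k List.mem_cons_self
    have e : genG k = xr ⟨k, h⟩ := by
      interval_cases k <;> rfl
    rw [e]
    exact hy.fix _

end M08

open M08 Pool.Agent.A8.Flag in
theorem bTRI (h1 : S_HECKE) (h2 : S_HV000) (h3 : S_HV101) (h4 : S_HV111) : S_TRI := by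
  intro X Y S _ _ _ _ _ _ _ _ _ hX hY hS fX fY fS p hp hwex
  obtain ⟨w, hw⟩ := hwex
  have ntY : Nontrivial Y := IsSimpleModule.nontrivial RG Y
  have hZ : IsSimpleModule RG (Du S) := Du.simple hS
  have ntZ : Nontrivial (Du S) := IsSimpleModule.nontrivial RG (Du S)
  obtain ⟨J, y0, hy⟩ := h1 Y
  obtain ⟨J', z0, hz⟩ := h1 (Du S)
  obtain ⟨⟨y', hy'⟩, hJ⟩ := hecke_prop h2 h3 h4 fY hy
  obtain ⟨⟨z', hz'⟩, -⟩ := hecke_prop h2 h3 h4 fS.du hz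
  -- equivariance of evaluation
  have hev : ∀ (g : Gam) (z : Du S) (s : S), (act g z) (act g s) = z s := by
    intro g z s
    rw [act_Du, act_inv_act]
  -- the orthogonality relations
  have o1 : ∀ x y, p (nrm4 h0 x) (nrm4 h0 y) = 0 := hp.four h0 h0_order
  have o2 : ∀ (x : X) (y : Y) (z : Du S), (nrm4 h0 z) (p (nrm4 h0 x) y) = 0 := by
    intro x y z
    have h := (dp_adm (flip_adm hp)).four h0 h0_order x z
    have h' := congrArg (fun f : Du Y => f y) h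
    exact h'
  -- the additive subgroup of vectors orthogonal to `y0`, `w0 z0`
  let A : AddSubgroup X :=
    { carrier := {x | (act w0 z0) (p x y0) = 0}
      zero_mem' := by
        change (act w0 z0) (p 0 y0) = 0
        rw [map_zero, AddMonoidHom.zero_apply, map_zero]
      add_mem' := by
        intro a b ha hb
        change (act w0 z0) (p (a + b) y0) = 0
        rw [map_add, AddMonoidHom.add_apply, map_add, show (act w0 z0) (p a y0) = 0 from ha,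
          show (act w0 z0) (p b y0) = 0 from hb, add_zero]
      neg_mem' := by
        intro a ha
        change (act w0 z0) (p (-a) y0) = 0
        rw [map_neg, AddMonoidHom.neg_apply, map_neg, show (act w0 z0) (p a y0) = 0 from ha,
          neg_zero] }
  have hAm : ∀ x, x ∈ A ↔ (act w0 z0) (p x y0) = 0 := fun _ => Iff.rfl
  -- norms lie in `A`
  have c1 : ∀ c : Gam, act c y0 = y0 → ∀ x, act c (nrm4 h0 x) ∈ A := by
    intro c hc x
    rw [hAm, ← hc, hp.equiv, ← hy', o1, act_zero, map_zero]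
  have c2 : ∀ b : Gam, act b z0 = z0 → ∀ x, act (w0 * b) (nrm4 h0 x) ∈ A := by
    intro b hb x
    rw [hAm]
    have e1 : act w0 z0 = act (w0 * b) z0 := by rw [act_mul, hb]
    have e2 : p (act (w0 * b) (nrm4 h0 x)) y0 =
        act (w0 * b) (p (nrm4 h0 x) (act (w0 * b)⁻¹ y0)) := by
      rw [← hp.equiv, act_act_inv]
    rw [e1, e2, hev, ← hz', o2]
  -- everything lies in `A`
  have hAall : ∀ g, act g w ∈ A := by
    rcases hJ with hJ | hJ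
    · apply all_mem hw A 0 (Or.inl rfl)
      rintro ⟨b, c, g⟩ hr x
      rw [okr, List.all_eq_true] at hr
      cases b
      · apply c1
        apply word_fix hy 0 hJ
        intro k hk
        have := hr k hk
        simpa using this
      · have e : wG (cword (true, c, g)) = w0 * wG c := by
          change wG (w0w ++ c) = _
          rw [wG_append]
          rfl
        rw [e]
        apply c2
        apply word_fixB hz
        intro k hk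
        have := hr k hk
        simpa using this
    · apply all_mem hw A 2 (Or.inr rfl)
      rintro ⟨b, c, g⟩ hr x
      rw [okr, List.all_eq_true] at hr
      cases b
      · apply c1
        apply word_fix hy 2 hJ
        intro k hk
        have := hr k hk
        simpa using this
      · have e : wG (cword (true, c, g)) = w0 * wG c := by
          change wG (w0w ++ c) = _
          rw [wG_append]
          rfl
        rw [e]
        apply c2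
        apply word_fixB hz
        intro k hk
        have := hr k hk
        simpa using this
  have hwne : w ≠ 0 := by
    rcases hw with hw | hw
    · exact hw.ne
    · exact hw.ne
  -- a generating argument
  have gen : ∀ {M : Type} [AddCommGroup M] [Module RG M], IsSimpleModule RG M → ∀ m : M, m ≠ 0 →
      ∀ B : AddSubgroup M, (∀ g, act g m ∈ B) → B = ⊤ := by
    intro M _ _ hM m hm B hB
    let C : AddSubgroup M := AddSubgroup.closure {x | ∃ g, x = act g m}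
    have hC : ∀ g, ∀ x ∈ C, act g x ∈ C := by
      intro g x hx
      induction hx using AddSubgroup.closure_induction with
      | mem x hx =>
        obtain ⟨k, rfl⟩ := hx
        apply AddSubgroup.subset_closure
        exact ⟨g * k, by rw [act_mul]⟩
      | zero => rw [act_zero]; exact C.zero_mem
      | add a b _ _ ha hb => rw [act_add]; exact C.add_mem ha hb
      | neg a _ ha => rw [act_neg]; exact C.neg_mem ha
    have hCB : C ≤ B := by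
      rw [AddSubgroup.closure_le]
      rintro _ ⟨g, rfl⟩
      exact hB g
    have hmC : m ∈ mkSub C hC := AddSubgroup.subset_closure ⟨1, by rw [act_one]⟩
    rcases eq_bot_or_eq_top (mkSub C hC) with h | h
    · rw [h, Submodule.mem_bot] at hmC
      exact absurd hmC hm
    · rw [eq_top_iff]
      intro x _
      apply hCB
      have : x ∈ mkSub C hC := by rw [h]; exact Submodule.mem_top
      exact this
  have hAtop : A = ⊤ := gen hX w hwne A hAall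
  have q1 : ∀ x, (act w0 z0) (p x y0) = 0 := by
    intro x
    rw [← hAm, hAtop]
    exact AddSubgroup.mem_top x
  -- all translates of `z0`
  let W : AddSubgroup (Du S) :=
    { carrier := {z | ∀ x, z (p x y0) = 0}
      zero_mem' := fun x => rfl
      add_mem' := by
        intro a b ha hb x
        rw [Du.add_apply, ha x, hb x, add_zero]
      neg_mem' := by
        intro a ha x
        have h := ha x
        change (-a : Du S) (p x y0) = 0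
        rw [neg_eq]
        exact h }
  have q2 : ∀ g x, (act g z0) (p x y0) = 0 := by
    intro g
    apply dclos hz W q1
    intro i ζ hζ x
    rw [act_Du, ← hp.equiv]
    have e : act (xr i)⁻¹ y0 = y0 := by
      nth_rewrite 1 [← hy.fix i]
      rw [act_inv_act]
    rw [e]
    exact hζ _
  -- so the values vanish
  let N : Submodule RG S := mkSub
    { carrier := {s | ∀ g, (act g z0) s = 0}
      zero_mem' := fun g => map_zero _
      add_mem' := by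
        intro a b ha hb g
        rw [map_add, ha g, hb g, add_zero]
      neg_mem' := by
        intro a ha g
        rw [map_neg, ha g, neg_zero] }
    (by
      intro g s hs k
      have h := hs (g⁻¹ * k)
      rw [act_Du] at h ⊢
      rw [_root_.mul_inv_rev, inv_inv, act_mul] at h
      exact h)
  have hN : N = ⊥ := by
    rcases eq_bot_or_eq_top N with h | h
    · exact h
    · exfalso
      apply hz.ne
      ext s
      have hs : s ∈ N := by rw [h]; exact Submodule.mem_top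
      have := hs 1
      rw [act_one] at this
      exact this
  have q3 : ∀ x, p x y0 = 0 := by
    intro x
    have : p x y0 ∈ N := fun g => q2 g x
    rwa [hN, Submodule.mem_bot] at this
  let B : AddSubgroup Y :=
    { carrier := {y | ∀ x, p x y = 0}
      zero_mem' := fun x => map_zero _
      add_mem' := by
        intro a b ha hb x
        rw [map_add, ha x, hb x, add_zero]
      neg_mem' := by
        intro a ha x
        rw [map_neg, ha x, neg_zero] }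
  have hB : B = ⊤ := by
    apply gen hY y0 hy.ne
    intro g x
    have h := hp.equiv g (act g⁻¹ x) y0
    rw [act_act_inv, q3, act_zero] at h
    exact h
  intro x y
  have : y ∈ B := by rw [hB]; exact AddSubgroup.mem_top y
  exact this x

end Pool.Agent.A8
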